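import Mathlib

set_option autoImplicit false

/-! Combinatorial set-up: a countable set `NN`, branches, marks. -/

namespace CpTwo

/-- the Cantor set -/
abbrev C := ℕ → Bool

/-- prefix of length `n` -/
def pr (z : C) (n : ℕ) : List Bool := (List.range n).map z

theorem length_pr (z : C) (n : ℕ) : (pr z n).length = n := by simp [pr]

theorem pr_eq_iff {z z' : C} {n : ℕ} : pr z n = pr z' n ↔ ∀ i < n, z i = z' i := by
  unfold pr
  rw [List.map_inj_left]
  simp

theorem pr_eq_mono {z z' : C} {n m : ℕ} (h : pr z n = pr z' n) (hm : m ≤ n) : pr z m = pr z' m := by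
  rw [pr_eq_iff] at h ⊢
  exact fun i hi => h i (lt_of_lt_of_le hi hm)

/-- `s` is a prefix of `z` -/
def Pfx (s : List Bool) (z : C) : Prop := s = pr z s.length

theorem pfx_pr (z : C) (n : ℕ) : Pfx (pr z n) z := by
  unfold Pfx; rw [length_pr]

theorem pfx_nil (z : C) : Pfx [] z := rfl

theorem Pfx.congr {s : List Bool} {z z' : C} {n : ℕ} (h : pr z n = pr z' n) (hn : s.length ≤ n)
    (hs : Pfx s z) : Pfx s z' := by
  unfold Pfx at *
  rw [hs, length_pr]
  exact pr_eq_mono h hn

/-- two different points have a bounded common prefix -/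
theorem exists_bound {z z' : C} (h : z ≠ z') : ∃ k, ∀ s : List Bool, Pfx s z → Pfx s z' → s.length ≤ k := by
  obtain ⟨k, hk⟩ := Function.ne_iff.1 h
  refine ⟨k, fun s h1 h2 => ?_⟩
  by_contra hlt
  push Not at hlt
  have h3 : pr z s.length = pr z' s.length := by rw [← h1]; exact h2
  exact hk (pr_eq_iff.1 h3 k hlt)

/-- the countable part of the space -/
inductive NN
  | inf : NN
  | x : List Bool → NN
  | iso : List Bool → List Bool → NN

/-- code -/
def NN.code : NN → Option (List Bool ⊕ (List Bool × List Bool))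
  | .inf => none
  | .x s => some (Sum.inl s)
  | .iso s r => some (Sum.inr (s, r))

theorem NN.code_injective : Function.Injective NN.code := by
  intro a b h
  cases a <;> cases b <;> simp_all [NN.code]

instance : Countable NN := NN.code_injective.countable

noncomputable instance : DecidableEq NN := Classical.decEq _

instance : Infinite NN :=
  Infinite.of_injective (fun n : ℕ => NN.x (List.replicate n true)) (by
    intro a b h
    simp only [NN.x.injEq] at h
    have := congrArg List.length h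
    simpa using this)

/-- the block set attached to `z` -/
def hz (z : C) : Set NN := {q | match q with | .inf => False | .x s => Pfx s z | .iso s _ => Pfx s z}

/-- the branch of `z` in the block `s` -/
def bz (s : List Bool) (z : C) : Set NN := {q | ∃ r, q = .iso s r ∧ Pfx r z}

/-- the block `s` -/
def blk (s : List Bool) : Set NN := {q | ∃ r, q = .iso s r}

/-- the non isolated points -/
def pnt : Option (List Bool) → NN
  | none => .inf
  | some s => .x s

/-- domain -/
def dom : Option (List Bool) → Set NN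
  | none => Set.univ
  | some s => blk s

/-- generating sets -/
def beta : Option (List Bool) → C → Set NN
  | none, z => hz z
  | some s, z => bz s z

/-- length bound of a point -/
def NN.L : NN → ℕ
  | .inf => 0
  | .x s => s.length
  | .iso s r => max s.length r.length

theorem beta_congr {y : Option (List Bool)} {q : NN} {z z' : C} {n : ℕ} (h : pr z n = pr z' n)
    (hn : q.L ≤ n) (hq : q ∈ beta y z) : q ∈ beta y z' := by
  cases y with
  | none =>
    cases q with
    | inf => exact hq.elim
    | x s => exact Pfx.congr h hn hq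
    | iso s r => exact Pfx.congr h (le_trans (le_max_left _ _) hn) hq
  | some s =>
    obtain ⟨r, rfl, hr⟩ := hq
    exact ⟨r, rfl, Pfx.congr h (le_trans (le_max_right _ _) hn) hr⟩

theorem bz_infinite (s : List Bool) (z : C) : (bz s z).Infinite := by
  refine Set.infinite_of_injective_forall_mem (f := fun n : ℕ => NN.iso s (pr z n)) ?_ ?_
  · intro a b h
    simp only [NN.iso.injEq, true_and] at h
    have := congrArg List.length h
    simpa [length_pr] using this
  · intro n
    exact ⟨pr z n, rfl, pfx_pr z n⟩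

theorem bz_inter_finite {s : List Bool} {z z' : C} (h : z ≠ z') : (bz s z ∩ bz s z').Finite := by
  obtain ⟨k, hk⟩ := exists_bound h
  refine ((Set.finite_Iic k).image (fun n => NN.iso s (pr z n))).subset ?_
  rintro q ⟨⟨r, rfl, hr⟩, ⟨r', h', hr'⟩⟩
  simp only [NN.iso.injEq, true_and] at h'
  subst h'
  exact ⟨r.length, hk r hr hr', by simp only [NN.iso.injEq, true_and]; exact hr.symm⟩

/-- marks -/
structure Mark where
  /-- target -/
  y : Option (List Bool)
  /-- sequence -/
  Q : Set NN

/-- valid marks at `z` -/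
def Valid (z : C) (M : Mark) : Prop :=
  M.Q.Infinite ∧ M.Q ⊆ beta M.y z ∧ (∀ q ∈ M.Q, ∃ s r, q = NN.iso s r) ∧
    (∀ s, M.y = none → (M.Q ∩ blk s).Finite) ∧ (∀ s, M.y = some s → Pfx s z)

theorem Valid.subset_dom {z : C} {M : Mark} (h : Valid z M) : M.Q ⊆ dom M.y := by
  intro q hq
  have h2 := h.2.1 hq
  cases hy : M.y with
  | none => trivial
  | some s =>
    rw [hy] at h2
    obtain ⟨r, rfl, _⟩ := h2
    exact ⟨r, rfl⟩

theorem Valid.inter_finite {z z' : C} {M : Mark} (h : Valid z M) (hz' : z' ≠ z) :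
    (M.Q ∩ beta M.y z').Finite := by
  obtain ⟨h1, h2, h3, h4, h5⟩ := h
  cases hy : M.y with
  | none =>
    rw [hy] at h2
    obtain ⟨k, hk⟩ := exists_bound hz'
    have hf : (⋃ n ∈ Set.Iic k, (M.Q ∩ blk (pr z n))).Finite :=
      (Set.finite_Iic k).biUnion fun n _ => h4 _ hy
    refine hf.subset ?_
    rintro q ⟨hq, hq'⟩
    obtain ⟨s, r, rfl⟩ := h3 q hq
    have hs : Pfx s z := h2 hq
    have hs' : Pfx s z' := hq'
    rw [Set.mem_iUnion₂]
    exact ⟨s.length, hk s hs' hs, hq, r, by rw [← hs]⟩
  | some s =>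
    rw [hy] at h2
    exact (bz_inter_finite (Ne.symm hz')).subset (Set.inter_subset_inter_left _ h2)

/-- `f` respects the mark -/
def Resp (f : NN → Bool) (M : Mark) : Prop := {q | q ∈ M.Q ∧ f q ≠ f (pnt M.y)}.Finite

/-- the basic local condition -/
def G0 (f : NN → Bool) : Prop :=
  ∀ y, ∃ (J : Finset NN) (Z : Finset C), ∀ q ∈ dom y, f q ≠ f (pnt y) → q ∈ J ∨ ∃ z ∈ Z, q ∈ beta y z

theorem resp_of_notMem {f : NN → Bool} {M : Mark} {z : C} (hv : Valid z M) {J : Finset NN} {Z : Set C}
    (hZ : Z.Finite)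
    (h : ∀ q ∈ dom M.y, f q ≠ f (pnt M.y) → q ∈ J ∨ ∃ z ∈ Z, q ∈ beta M.y z) (hz : z ∉ Z) :
    Resp f M := by
  have hf : ((J : Set NN) ∪ ⋃ z' ∈ Z, (M.Q ∩ beta M.y z')).Finite := by
    refine J.finite_toSet.union (hZ.biUnion fun z' hz' => hv.inter_finite ?_)
    rintro rfl; exact hz hz'
  refine hf.subset ?_
  rintro q ⟨hq, hne⟩
  rcases h q (hv.subset_dom hq) hne with h1 | ⟨z', h1, h2⟩
  · exact Or.inl h1
  · right
    rw [Set.mem_iUnion₂]
    exact ⟨z', h1, hq, h2⟩

/-- active points of `f` -/
def Act (f : NN → Bool) : Set C := {z | ∃ M, Valid z M ∧ ¬ Resp f M}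

theorem countable_act {f : NN → Bool} (hf : G0 f) : (Act f).Countable := by
  choose J Z h using hf
  refine (Set.countable_iUnion (fun y => (Z y).countable_toSet)).mono ?_
  rintro z ⟨M, hv, hr⟩
  by_contra hz
  refine hr (resp_of_notMem hv (Z M.y).finite_toSet (h M.y) ?_)
  intro hz'
  exact hz (Set.mem_iUnion.2 ⟨M.y, hz'⟩)

theorem exists_mark {f : NN → Bool} (hf : G0 f) (z : C) :
    ∃ M, Valid z M ∧ M.y ≠ some [] ∧ Resp f M := by
  by_cases hA : {n : ℕ | ∃ r, f (NN.iso (pr z n) r) = f NN.inf}.Infinite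
  · have hr : ∀ n ∈ {n : ℕ | ∃ r, f (NN.iso (pr z n) r) = f NN.inf}, ∃ r, f (NN.iso (pr z n) r) = f NN.inf :=
      fun n hn => hn
    choose! r hr using hr
    refine ⟨⟨none, (fun n => NN.iso (pr z n) (r n)) '' {n : ℕ | ∃ r, f (NN.iso (pr z n) r) = f NN.inf}⟩,
      ⟨?_, ?_, ?_, ?_, ?_⟩, by simp, ?_⟩
    · refine hA.image ?_
      intro a _ b _ h
      simp only [NN.iso.injEq] at h
      have := congrArg List.length h.1
      simpa [length_pr] using this
    · rintro q ⟨n, hn, rfl⟩
      exact pfx_pr z n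
    · rintro q ⟨n, hn, rfl⟩
      exact ⟨_, _, rfl⟩
    · intro s _
      refine (Set.finite_singleton (NN.iso s (r s.length))).subset ?_
      rintro q ⟨⟨n, hn, rfl⟩, r', h'⟩
      simp only [NN.iso.injEq] at h'
      have h3 : n = s.length := by rw [← h'.1, length_pr]
      simp only [Set.mem_singleton_iff, NN.iso.injEq]
      exact ⟨h'.1, by rw [h3]⟩
    · intro s hs; simp at hs
    · refine Set.finite_empty.subset ?_
      rintro q ⟨⟨n, hn, rfl⟩, hne⟩
      exact hne (hr n hn)
  · rw [Set.not_infinite] at hA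
    obtain ⟨n, hn, hn1⟩ : ∃ n, n ∉ {n : ℕ | ∃ r, f (NN.iso (pr z n) r) = f NN.inf} ∧ 1 ≤ n := by
      obtain ⟨n, hn⟩ := (hA.union (Set.finite_Iic 0)).exists_notMem
      refine ⟨n, fun h => hn (Or.inl h), ?_⟩
      by_contra h0
      exact hn (Or.inr (by simp only [Set.mem_Iic]; omega))
    have hn' : ∀ r, f (NN.iso (pr z n) r) ≠ f NN.inf := fun r h => hn ⟨r, h⟩
    refine ⟨⟨some (pr z n), bz (pr z n) z⟩, ⟨bz_infinite _ _, le_refl _, ?_, by simp, ?_⟩, ?_, ?_⟩
    · rintro q ⟨r, rfl, _⟩; exact ⟨_, _, rfl⟩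
    · intro s hs
      simp only [Option.some.injEq] at hs
      rw [← hs]; exact pfx_pr z n
    · simp only [ne_eq, Option.some.injEq]
      intro h
      have := congrArg List.length h
      simp [length_pr] at this
      omega
    · have hx : f (NN.x (pr z n)) ≠ f NN.inf := by
        intro hx
        obtain ⟨J, Z, hJ⟩ := hf (some (pr z n))
        obtain ⟨z', hz'⟩ := Infinite.exists_notMem_finset Z
        have hfin : ((J : Set NN) ∪ ⋃ z'' ∈ Z, (bz (pr z n) z' ∩ bz (pr z n) z'')).Finite := by
          refine J.finite_toSet.union (Z.finite_toSet.biUnion fun z'' hz'' => bz_inter_finite ?_)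
          rintro rfl; exact hz' hz''
        refine bz_infinite (pr z n) z' (hfin.subset ?_)
        rintro q ⟨r, rfl, hr⟩
        have hne : f (NN.iso (pr z n) r) ≠ f (pnt (some (pr z n))) := by
          change f (NN.iso (pr z n) r) ≠ f (NN.x (pr z n))
          rw [hx]; exact hn' r
        rcases hJ _ ⟨r, rfl⟩ hne with h1 | ⟨z'', h1, h2⟩
        · exact Or.inl h1
        · right
          rw [Set.mem_iUnion₂]
          exact ⟨z'', h1, ⟨r, rfl, hr⟩, h2⟩
      refine Set.finite_empty.subset ?_
      rintro q ⟨⟨r, rfl, hr⟩, hne⟩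
      have h1 := hn' r
      change f (NN.iso (pr z n) r) ≠ f (NN.x (pr z n)) at hne
      rw [Bool.eq_not_of_ne h1, Bool.eq_not_of_ne hx] at hne
      exact hne rfl

end CpTwo
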