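import Mathlib
import Pool.Agent.CpTwo.Basic

set_option autoImplicit false

namespace CpTwo

open Set Cardinal

/-- functions on the countable part -/
abbrev Fn := NN → Bool

theorem pigeon {ι : Type*} [Countable ι] {V : Set Fn} (hV : ¬ V.Countable) (g : Fn → ι) :
    ∃ i, ¬ {w | w ∈ V ∧ g w = i}.Countable := by
  by_contra h
  push Not at h
  refine hV ((countable_iUnion h).mono fun w hw => ?_)
  exact mem_iUnion.2 ⟨g w, hw, rfl⟩

theorem const_or_inj {V : Set Fn} (hV : ¬ V.Countable) (v : Fn → C) :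
    ∃ V' ⊆ V, ¬ V'.Countable ∧ ((∃ c, ∀ w ∈ V', v w = c) ∨ InjOn v V') := by
  by_cases h : ∃ c, ¬ {w | w ∈ V ∧ v w = c}.Countable
  · obtain ⟨c, hc⟩ := h
    exact ⟨_, fun w hw => hw.1, hc, Or.inl ⟨c, fun w hw => hw.2⟩⟩
  · push Not at h
    have h1 : ¬ (v '' V).Countable := by
      intro h2
      refine hV ((h2.biUnion fun c _ => h c).mono fun w hw => ?_)
      exact mem_iUnion₂.2 ⟨v w, mem_image_of_mem v hw, hw, rfl⟩
    obtain ⟨V', hV', hb⟩ := (surjOn_image v V).exists_bijOn_subset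
    refine ⟨V', hV', fun h2 => h1 ?_, Or.inr hb.injOn⟩
    rw [← hb.image_eq]
    exact h2.image v

/-- the reduced generating sets -/
def gam (E : Set (C × Mark)) (y : Option (List Bool)) (c : C) : Set NN :=
  {q | q ∈ beta y c ∧ ∀ M, (c, M) ∈ E → M.y = y → q ∉ M.Q}

theorem thin_aux {E : Set (C × Mark)} (hfun : ∀ z M M', (z, M) ∈ E → (z, M') ∈ E → M = M')
    {W : Set Fn} (hE : ∀ p ∈ E, {w | w ∈ W ∧ ¬ Resp w p.2}.Countable) (y : Option (List Bool))
    (vs : List (Fn → C)) : ∀ (us : List (Fn → C)) (V : Set Fn) (J : Finset NN) (Zc : Finset C),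
      ¬ V.Countable → V ⊆ W → (∀ u ∈ us, InjOn u V) →
      (∀ w ∈ V, ∀ q ∈ dom y, w q ≠ w (pnt y) → q ∈ J ∨ (∃ c ∈ Zc, q ∈ gam E y c) ∨
        (∃ u ∈ us, q ∈ beta y (u w)) ∨ ∃ v ∈ vs, q ∈ beta y (v w)) →
      ∃ (V' : Set Fn) (us' : List (Fn → C)) (J' : Finset NN) (Zc' : Finset C),
        V' ⊆ V ∧ ¬ V'.Countable ∧ (∀ u ∈ us', InjOn u V') ∧
        (∀ w ∈ V', ∀ q ∈ dom y, w q ≠ w (pnt y) → q ∈ J' ∨ (∃ c ∈ Zc', q ∈ gam E y c) ∨
          (∃ u ∈ us', q ∈ beta y (u w))) := by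
  classical
  induction vs with
  | nil =>
    intro us V J Zc hV hVW hus h
    refine ⟨V, us, J, Zc, le_refl _, hV, hus, fun w hw q hq hne => ?_⟩
    rcases h w hw q hq hne with h1 | h1 | h1 | ⟨v, hv, _⟩
    · exact Or.inl h1
    · exact Or.inr (Or.inl h1)
    · exact Or.inr (Or.inr h1)
    · simp at hv
  | cons v vs ih =>
    intro us V J Zc hV hVW hus h
    obtain ⟨V1, hV1, hunc1, hc⟩ := const_or_inj hV v
    rcases hc with ⟨c, hc⟩ | hinj
    · by_cases hM : ∃ M, (c, M) ∈ E ∧ M.y = y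
      · obtain ⟨M, hM, hy⟩ := hM
        have hunc2 : ¬ (V1 \ {w | w ∈ W ∧ ¬ Resp w M}).Countable := by
          intro h2
          refine hunc1 ((h2.union (hE _ hM)).mono fun w hw => ?_)
          by_cases hw' : w ∈ {w | w ∈ W ∧ ¬ Resp w M}
          · exact Or.inr hw'
          · exact Or.inl ⟨hw, hw'⟩
        obtain ⟨X, hX⟩ := pigeon hunc2 (fun w => if h : {q | q ∈ M.Q ∧ w q ≠ w (pnt M.y)}.Finite
          then h.toFinset else ∅)
        obtain ⟨V', us', J', Zc', h1, h2, h3, h4⟩ := ih us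
          {w | w ∈ V1 \ {w | w ∈ W ∧ ¬ Resp w M} ∧ (if h : {q | q ∈ M.Q ∧ w q ≠ w (pnt M.y)}.Finite
          then h.toFinset else ∅) = X}
          (J ∪ X) (insert c Zc) hX (fun w hw => hVW (hV1 hw.1.1))
          (fun u hu => (hus u hu).mono fun w hw => hV1 hw.1.1) (by
            rintro w ⟨⟨hw, hw2⟩, hwX⟩ q hq hne
            have hresp : {q | q ∈ M.Q ∧ w q ≠ w (pnt M.y)}.Finite := by
              by_contra hr
              exact hw2 ⟨hVW (hV1 hw), hr⟩
            rw [dif_pos hresp] at hwX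
            rcases h w (hV1 hw) q hq hne with h1 | ⟨c', h1, h1'⟩ | h1 | ⟨v', hv', hqv⟩
            · exact Or.inl (Finset.mem_union_left _ h1)
            · exact Or.inr (Or.inl ⟨c', Finset.mem_insert_of_mem h1, h1'⟩)
            · exact Or.inr (Or.inr (Or.inl h1))
            · rcases List.mem_cons.1 hv' with rfl | hv''
              · rw [hc w hw] at hqv
                by_cases hqM : q ∈ M.Q
                · left
                  apply Finset.mem_union_right
                  rw [← hwX, Set.Finite.mem_toFinset]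
                  exact ⟨hqM, by rw [hy]; exact hne⟩
                · right; left
                  refine ⟨c, Finset.mem_insert_self _ _, hqv, fun M' hM' _ => ?_⟩
                  rw [hfun c M' M hM' hM]; exact hqM
              · exact Or.inr (Or.inr (Or.inr ⟨v', hv'', hqv⟩)))
        exact ⟨V', us', J', Zc', fun w hw => hV1 (h1 hw).1.1, h2, h3, h4⟩
      · push Not at hM
        obtain ⟨V', us', J', Zc', h1, h2, h3, h4⟩ := ih us V1 J (insert c Zc) hunc1
          (hV1.trans hVW) (fun u hu => (hus u hu).mono hV1) (by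
            intro w hw q hq hne
            rcases h w (hV1 hw) q hq hne with h1 | ⟨c', h1, h1'⟩ | h1 | ⟨v', hv', hqv⟩
            · exact Or.inl h1
            · exact Or.inr (Or.inl ⟨c', Finset.mem_insert_of_mem h1, h1'⟩)
            · exact Or.inr (Or.inr (Or.inl h1))
            · rcases List.mem_cons.1 hv' with rfl | hv''
              · rw [hc w hw] at hqv
                right; left
                exact ⟨c, Finset.mem_insert_self _ _, hqv, fun M' hM' hy' => absurd hy' (hM M' hM')⟩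
              · exact Or.inr (Or.inr (Or.inr ⟨v', hv'', hqv⟩)))
        exact ⟨V', us', J', Zc', h1.trans hV1, h2, h3, h4⟩
    · obtain ⟨V', us', J', Zc', h1, h2, h3, h4⟩ := ih (v :: us) V1 J Zc hunc1
          (hV1.trans hVW) (fun u hu => by
            rcases List.mem_cons.1 hu with rfl | hu
            · exact hinj
            · exact (hus u hu).mono hV1) (by
            intro w hw q hq hne
            rcases h w (hV1 hw) q hq hne with h1 | h1 | ⟨u, hu, hqu⟩ | ⟨v', hv', hqv⟩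
            · exact Or.inl h1
            · exact Or.inr (Or.inl h1)
            · exact Or.inr (Or.inr (Or.inl ⟨u, List.mem_cons_of_mem _ hu, hqu⟩))
            · rcases List.mem_cons.1 hv' with rfl | hv''
              · exact Or.inr (Or.inr (Or.inl ⟨v', List.mem_cons_self, hqv⟩))
              · exact Or.inr (Or.inr (Or.inr ⟨v', hv'', hqv⟩)))
      exact ⟨V', us', J', Zc', h1.trans hV1, h2, h3, h4⟩

theorem thin {E : Set (C × Mark)} (hfun : ∀ z M M', (z, M) ∈ E → (z, M') ∈ E → M = M')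
    {W : Set Fn} (hG : ∀ w ∈ W, G0 w)
    (hE : ∀ p ∈ E, {w | w ∈ W ∧ ¬ Resp w p.2}.Countable) (y : Option (List Bool))
    {V : Set Fn} (hV : ¬ V.Countable) (hVW : V ⊆ W) :
      ∃ (V' : Set Fn) (us' : List (Fn → C)) (J' : Finset NN) (Zc' : Finset C),
        V' ⊆ V ∧ ¬ V'.Countable ∧ (∀ u ∈ us', InjOn u V') ∧
        (∀ w ∈ V', ∀ q ∈ dom y, w q ≠ w (pnt y) → q ∈ J' ∨ (∃ c ∈ Zc', q ∈ gam E y c) ∨
          (∃ u ∈ us', q ∈ beta y (u w))) := by
  have hG' : ∀ w ∈ W, ∃ (J : Finset NN) (Z : Finset C), ∀ q ∈ dom y, w q ≠ w (pnt y) →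
      q ∈ J ∨ ∃ z ∈ Z, q ∈ beta y z := fun w hw => hG w hw y
  choose! J Z hJZ using hG'
  obtain ⟨⟨J0, k⟩, hfix⟩ := pigeon hV (fun w => (J w, (Z w).card))
  obtain ⟨V', us', J', Zc', h1, h2, h3, h4⟩ := thin_aux hfun hE y
    ((List.range k).map (fun i => fun w => (Z w).toList.getD i (fun _ => false))) []
    {w | w ∈ V ∧ (J w, (Z w).card) = (J0, k)} J0 ∅ hfix (fun w hw => hVW hw.1) (by simp) (by
      rintro w ⟨hw, he⟩ q hq hne
      simp only [Prod.mk.injEq] at he
      rcases hJZ w (hVW hw) q hq hne with h | ⟨z, hz, hqz⟩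
      · left; rw [← he.1]; exact h
      · right; right; right
        have hz' : z ∈ (Z w).toList := Finset.mem_toList.2 hz
        obtain ⟨i, hi, hiz⟩ := List.mem_iff_getElem.1 hz'
        refine ⟨fun w => (Z w).toList.getD i (fun _ => false), ?_, ?_⟩
        · rw [List.mem_map]
          refine ⟨i, ?_, rfl⟩
          rw [List.mem_range, ← he.2, ← Finset.length_toList]
          exact hi
        · have : (Z w).toList.getD i (fun _ => false) = z := by
            rw [List.getD_eq_getElem _ _ hi, hiz]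
          simp only [this]
          exact hqz)
  exact ⟨V', us', J', Zc', fun w hw => (h1 hw).1, h2, h3, h4⟩

theorem exists_uniform {A : Type*} (P : A → ℕ → Prop) (hmono : ∀ a n m, n ≤ m → P a n → P a m)
    (l : List A) (h : ∀ a ∈ l, ∃ n, P a n) : ∃ n, ∀ a ∈ l, P a n := by
  induction l with
  | nil => exact ⟨0, by simp⟩
  | cons a l ih =>
    obtain ⟨n, hn⟩ := ih fun b hb => h b (List.mem_cons_of_mem _ hb)
    obtain ⟨m, hm⟩ := h a List.mem_cons_self
    refine ⟨max n m, fun b hb => ?_⟩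
    rcases List.mem_cons.1 hb with rfl | hb
    · exact hmono _ _ _ (le_max_right _ _) hm
    · exact hmono _ _ _ (le_max_left _ _) (hn b hb)

theorem split {V : Set Fn} (hV : ¬ V.Countable) (us : List (Fn → C)) (hus : ∀ u ∈ us, InjOn u V) :
    ∃ (V0 V1 : Set Fn) (N : ℕ), V0 ⊆ V ∧ V1 ⊆ V ∧ ¬ V0.Countable ∧ ¬ V1.Countable ∧
      ∀ u ∈ us, ∀ w ∈ V0, ∀ w' ∈ V1, pr (u w) N ≠ pr (u w') N := by
  have hbad : (⋃ (N : ℕ), ⋃ (L : List (List Bool)), {w | w ∈ V ∧ us.map (fun u => pr (u w) N) = L ∧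
      {w' | w' ∈ V ∧ us.map (fun u => pr (u w') N) = L}.Countable}).Countable := by
    refine countable_iUnion fun N => countable_iUnion fun L => ?_
    by_cases h : {w' | w' ∈ V ∧ us.map (fun u => pr (u w') N) = L}.Countable
    · refine h.mono fun w hw => ?_
      exact ⟨hw.1, hw.2.1⟩
    · convert countable_empty
      ext w
      simp only [mem_ofPred_eq, mem_empty_iff_false, iff_false, not_and]
      exact fun _ _ => h
  have h2 : ¬ (V \ (⋃ (N : ℕ), ⋃ (L : List (List Bool)), {w | w ∈ V ∧ us.map (fun u => pr (u w) N) = L ∧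
      {w' | w' ∈ V ∧ us.map (fun u => pr (u w') N) = L}.Countable})).Countable := by
    intro h3
    refine hV ((h3.union hbad).mono fun w hw => ?_)
    by_cases hw' : w ∈ (⋃ (N : ℕ), ⋃ (L : List (List Bool)), {w | w ∈ V ∧ us.map (fun u => pr (u w) N) = L ∧
      {w' | w' ∈ V ∧ us.map (fun u => pr (u w') N) = L}.Countable})
    · exact Or.inr hw'
    · exact Or.inl ⟨hw, hw'⟩
  obtain ⟨w0, hw0, w1, hw1, hne⟩ : ∃ w0 ∈ (V \ (⋃ (N : ℕ), ⋃ (L : List (List Bool)),
      {w | w ∈ V ∧ us.map (fun u => pr (u w) N) = L ∧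
      {w' | w' ∈ V ∧ us.map (fun u => pr (u w') N) = L}.Countable})), ∃ w1 ∈ (V \ (⋃ (N : ℕ),
      ⋃ (L : List (List Bool)), {w | w ∈ V ∧ us.map (fun u => pr (u w) N) = L ∧
      {w' | w' ∈ V ∧ us.map (fun u => pr (u w') N) = L}.Countable})), w0 ≠ w1 := by
    by_contra h3
    push Not at h3
    exact h2 (Set.Subsingleton.countable fun a ha b hb => h3 a ha b hb)
  have hcond : ∀ w ∈ (V \ (⋃ (N : ℕ), ⋃ (L : List (List Bool)), {w | w ∈ V ∧ us.map (fun u => pr (u w) N) = L ∧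
      {w' | w' ∈ V ∧ us.map (fun u => pr (u w') N) = L}.Countable})), ∀ N,
      ¬ {w' | w' ∈ V ∧ us.map (fun u => pr (u w') N) = us.map (fun u => pr (u w) N)}.Countable := by
    intro w hw N h
    exact hw.2 (mem_iUnion₂.2 ⟨N, us.map (fun u => pr (u w) N), hw.1, rfl, h⟩)
  obtain ⟨N, hN⟩ := exists_uniform (fun (u : Fn → C) N => pr (u w0) N ≠ pr (u w1) N)
    (fun u n m hnm h h' => h (pr_eq_mono h' hnm)) us (by
      intro u hu
      have h3 : u w0 ≠ u w1 := fun h => hne (hus u hu hw0.1 hw1.1 h)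
      obtain ⟨k, hk⟩ := Function.ne_iff.1 h3
      exact ⟨k + 1, fun h => hk (pr_eq_iff.1 h k (Nat.lt_succ_self k))⟩)
  refine ⟨_, _, N, fun w hw => hw.1, fun w hw => hw.1, hcond w0 hw0 N, hcond w1 hw1 N, ?_⟩
  rintro u hu w ⟨_, hw⟩ w' ⟨_, hw'⟩ h
  rw [List.map_inj_left] at hw hw'
  exact hN u hu (by rw [← hw u hu, ← hw' u hu]; exact h)

/-- nodes of the fusion tree -/
structure Node (W : Set Fn) where
  /-- the set -/
  V : Set Fn
  /-- the coordinates -/
  us : List (Fn → C)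
  unc : ¬ V.Countable
  sub : V ⊆ W
  inj : ∀ u ∈ us, InjOn u V

/-- enumeration of `NN` -/
noncomputable def en : ℕ → NN := Classical.choose (exists_surjective_nat NN)
theorem en_surj : Function.Surjective en := Classical.choose_spec (exists_surjective_nat NN)
/-- enumeration of the non isolated points -/
noncomputable def ye : ℕ → Option (List Bool) := Classical.choose (exists_surjective_nat (Option (List Bool)))
theorem ye_surj : Function.Surjective ye := Classical.choose_spec (exists_surjective_nat (Option (List Bool)))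

theorem step {E : Set (C × Mark)} (hfun : ∀ z M M', (z, M) ∈ E → (z, M') ∈ E → M = M')
    {W : Set Fn} (hG : ∀ w ∈ W, G0 w)
    (hE : ∀ p ∈ E, {w | w ∈ W ∧ ¬ Resp w p.2}.Countable) (ν : Node W) (n : ℕ) :
    ∃ (new : List (Fn → C)) (J : Finset NN) (Zc : Finset C) (ch : Bool → Node W) (N : ℕ),
      (∀ b, (ch b).us = new ++ ν.us) ∧ (∀ b, (ch b).V ⊆ ν.V) ∧
      (∀ b, ∀ w ∈ (ch b).V, ∀ q ∈ dom (ye n), w q ≠ w (pnt (ye n)) → q ∈ J ∨
        (∃ c ∈ Zc, q ∈ gam E (ye n) c) ∨ (∃ u ∈ new, q ∈ beta (ye n) (u w))) ∧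
      (∀ b, ∀ w ∈ (ch b).V, ∀ w' ∈ (ch b).V, (∀ i < n, w (en i) = w' (en i)) ∧
        ∀ u ∈ new ++ ν.us, pr (u w) n = pr (u w') n) ∧
      (∀ u ∈ new ++ ν.us, ∀ w ∈ (ch false).V, ∀ w' ∈ (ch true).V, pr (u w) N ≠ pr (u w') N) := by
  obtain ⟨V1, new, J, Zc, h1, h2, h3, h4⟩ := thin hfun hG hE (ye n) ν.unc ν.sub
  have hinj1 : ∀ u ∈ new ++ ν.us, InjOn u V1 := by
    intro u hu
    rcases List.mem_append.1 hu with hu | hu
    · exact h3 u hu
    · exact (ν.inj u hu).mono h1
  obtain ⟨⟨L1, L2⟩, hL⟩ := pigeon h2 (fun w => ((List.range n).map (fun i => w (en i)),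
    (new ++ ν.us).map (fun u => pr (u w) n)))
  obtain ⟨V0', V1', N, h5, h6, h7, h8, h9⟩ := split hL (new ++ ν.us)
    (fun u hu => (hinj1 u hu).mono fun w hw => hw.1)
  have hagree : ∀ w ∈ {w | w ∈ V1 ∧ ((List.range n).map (fun i => w (en i)),
    (new ++ ν.us).map (fun u => pr (u w) n)) = (L1, L2)}, ∀ w' ∈ {w | w ∈ V1 ∧
      ((List.range n).map (fun i => w (en i)), (new ++ ν.us).map (fun u => pr (u w) n)) = (L1, L2)},
      (∀ i < n, w (en i) = w' (en i)) ∧ ∀ u ∈ new ++ ν.us, pr (u w) n = pr (u w') n := by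
    rintro w ⟨_, hw⟩ w' ⟨_, hw'⟩
    rw [← hw'] at hw
    simp only [Prod.mk.injEq] at hw
    obtain ⟨ha, hb⟩ := hw
    rw [List.map_inj_left] at ha hb
    exact ⟨fun i hi => ha i (List.mem_range.2 hi), hb⟩
  refine ⟨new, J, Zc, fun b => if b then
      ⟨V1', new ++ ν.us, h8, fun w hw => ν.sub (h1 (h6 hw).1), fun u hu => (hinj1 u hu).mono
        fun w hw => (h6 hw).1⟩ else
      ⟨V0', new ++ ν.us, h7, fun w hw => ν.sub (h1 (h5 hw).1), fun u hu => (hinj1 u hu).mono
        fun w hw => (h5 hw).1⟩, N, ?_, ?_, ?_, ?_, ?_⟩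
  · intro b; cases b <;> rfl
  · intro b; cases b
    · exact fun w hw => h1 (h5 hw).1
    · exact fun w hw => h1 (h6 hw).1
  · intro b; cases b
    · exact fun w hw => h4 w (h5 hw).1
    · exact fun w hw => h4 w (h6 hw).1
  · intro b; cases b
    · exact fun w hw w' hw' => hagree w (h5 hw) w' (h5 hw')
    · exact fun w hw w' hw' => hagree w (h6 hw) w' (h6 hw')
  · exact h9

end CpTwo
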