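import Mathlib
import Pool.Agent.CpTwo.Fusion

set_option autoImplicit false

namespace CpTwo

open Set Cardinal Filter Topology

/-- chosen data of one step -/
structure SD (E : Set (C × Mark)) (W : Set Fn) where
  /-- new coordinates -/
  new : Node W → ℕ → List (Fn → C)
  /-- finite sets -/
  J : Node W → ℕ → Finset NN
  /-- constants -/
  Zc : Node W → ℕ → Finset C
  /-- children -/
  ch : Node W → ℕ → Bool → Node W
  /-- separation level -/
  N : Node W → ℕ → ℕ
  h1 : ∀ ν n b, (ch ν n b).us = new ν n ++ ν.us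
  h2 : ∀ ν n b, (ch ν n b).V ⊆ ν.V
  h3 : ∀ ν n b, ∀ w ∈ (ch ν n b).V, ∀ q ∈ dom (ye n), w q ≠ w (pnt (ye n)) → q ∈ J ν n ∨
        (∃ c ∈ Zc ν n, q ∈ gam E (ye n) c) ∨ (∃ u ∈ new ν n, q ∈ beta (ye n) (u w))
  h4 : ∀ ν n b, ∀ w ∈ (ch ν n b).V, ∀ w' ∈ (ch ν n b).V, (∀ i < n, w (en i) = w' (en i)) ∧
        ∀ u ∈ new ν n ++ ν.us, pr (u w) n = pr (u w') n
  h5 : ∀ ν n, ∀ u ∈ new ν n ++ ν.us, ∀ w ∈ (ch ν n false).V, ∀ w' ∈ (ch ν n true).V,
        pr (u w) (N ν n) ≠ pr (u w') (N ν n)

namespace SD

variable {E : Set (C × Mark)} {W : Set Fn} (S : SD E W) (root : Node W)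

/-- nodes along a branch -/
def path (p : C) : ℕ → Node W
  | 0 => root
  | n + 1 => S.ch (path p n) n (p n)

theorem path_congr {p p' : C} : ∀ {n : ℕ}, pr p n = pr p' n → S.path root p n = S.path root p' n := by
  intro n
  induction n with
  | zero => intro _; rfl
  | succ n ih =>
    intro h
    have h1 : pr p n = pr p' n := pr_eq_mono h (Nat.le_succ n)
    have h2 : p n = p' n := pr_eq_iff.1 h n (Nat.lt_succ_self n)
    simp only [path, ih h1, h2]

theorem mono (p : C) {m k : ℕ} (h : m ≤ k) : (S.path root p k).V ⊆ (S.path root p m).V := by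
  induction h with
  | refl => exact le_refl _
  | step _ ih => exact (S.h2 _ _ _).trans ih

theorem us_mono (p : C) {m k : ℕ} (h : m ≤ k) {u : Fn → C} (hu : u ∈ (S.path root p m).us) :
    u ∈ (S.path root p k).us := by
  induction h with
  | refl => exact hu
  | step _ ih =>
    change u ∈ (S.ch _ _ _).us
    rw [S.h1]
    exact List.mem_append_right _ ih

theorem new_mem (p : C) (n : ℕ) {u : Fn → C} (hu : u ∈ S.new (S.path root p n) n) :
    u ∈ (S.path root p (n + 1)).us := by
  change u ∈ (S.ch _ _ _).us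
  rw [S.h1]
  exact List.mem_append_left _ hu

theorem agree (p : C) (m : ℕ) {w w' : Fn} (hw : w ∈ (S.path root p (m + 1)).V)
    (hw' : w' ∈ (S.path root p (m + 1)).V) : (∀ i < m, w (en i) = w' (en i)) ∧
      ∀ u ∈ (S.path root p (m + 1)).us, pr (u w) m = pr (u w') m := by
  have h := S.h4 _ _ _ w hw w' hw'
  refine ⟨h.1, fun u hu => h.2 u ?_⟩
  change u ∈ (S.ch _ _ _).us at hu
  rwa [S.h1] at hu

theorem nonempty_V (p : C) (k : ℕ) : (S.path root p k).V.Nonempty := by
  by_contra h
  rw [Set.not_nonempty_iff_eq_empty] at h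
  exact (S.path root p k).unc (by rw [h]; exact countable_empty)

/-- a chosen element -/
noncomputable def wk (p : C) (k : ℕ) : Fn := (S.nonempty_V root p k).some
theorem wk_mem (p : C) (k : ℕ) : S.wk root p k ∈ (S.path root p k).V := (S.nonempty_V root p k).some_mem

/-- index of a point -/
noncomputable def idx (q : NN) : ℕ := Classical.choose (en_surj q)
theorem en_idx (q : NN) : en (idx q) = q := Classical.choose_spec (en_surj q)

/-- the limit function -/
noncomputable def lim (p : C) : Fn := fun q => S.wk root p (idx q + 2) q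

theorem lim_spec (p : C) (q : NN) {k : ℕ} (hk : idx q + 2 ≤ k) {w : Fn}
    (hw : w ∈ (S.path root p k).V) : w q = S.lim root p q := by
  have h1 := S.mono root p hk hw
  have h2 := (S.agree root p (idx q + 1) h1 (S.wk_mem root p (idx q + 2))).1 (idx q) (Nat.lt_succ_self _)
  rw [en_idx] at h2
  exact h2

/-- the limit of a coordinate -/
noncomputable def limu (p : C) (n : ℕ) (u : Fn → C) : C := fun i => u (S.wk root p (max n i + 2)) i

theorem limu_spec (p : C) (n i : ℕ) {u : Fn → C} (hu : u ∈ (S.path root p (n + 1)).us) {k : ℕ}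
    (hk : max n i + 2 ≤ k) {w : Fn} (hw : w ∈ (S.path root p k).V) : u w i = S.limu root p n u i := by
  have h1 := S.mono root p hk hw
  have h2 := (S.agree root p (max n i + 1) h1 (S.wk_mem root p (max n i + 2))).2 u
    (S.us_mono root p (by have := le_max_left n i; omega) hu)
  exact pr_eq_iff.1 h2 i (by have := le_max_right n i; omega)

theorem limu_pr (p : C) (n j : ℕ) {u : Fn → C} (hu : u ∈ (S.path root p (n + 1)).us) {k : ℕ}
    (hk : max n j + 2 ≤ k) {w : Fn} (hw : w ∈ (S.path root p k).V) :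
    pr (u w) j = pr (S.limu root p n u) j := by
  rw [pr_eq_iff]
  intro i hi
  refine S.limu_spec root p n i hu (le_trans ?_ hk) hw
  have := max_le_max_left n hi.le
  omega

theorem limu_inj_aux {p p' : C} {n m : ℕ} (hm : n ≤ m) (h : pr p m = pr p' m) (h0 : p m = false)
    (h1 : p' m = true) {u : Fn → C} (hu : u ∈ S.new (S.path root p n) n) :
    S.limu root p n u ≠ S.limu root p' n u := by
  intro heq
  have hu' : u ∈ S.new (S.path root p' n) n := by
    rw [← S.path_congr root (pr_eq_mono h hm)]; exact hu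
  have hν : S.path root p m = S.path root p' m := S.path_congr root h
  have hmem : u ∈ S.new (S.path root p m) m ++ (S.path root p m).us := by
    have h2 := S.us_mono root p (Nat.succ_le_succ hm) (S.new_mem root p n hu)
    change u ∈ (S.ch _ _ _).us at h2
    rwa [S.h1] at h2
  set N := S.N (S.path root p m) m with hN
  set k := max n N + 2 + m with hk
  have hw := S.wk_mem root p k
  have hw' := S.wk_mem root p' k
  have e1 := S.limu_pr root p n N (S.new_mem root p n hu) (k := k) (by omega) hw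
  have e2 := S.limu_pr root p' n N (S.new_mem root p' n hu') (k := k) (by omega) hw'
  have hw1 := S.mono root p (show m + 1 ≤ k by omega) hw
  have hw2 := S.mono root p' (show m + 1 ≤ k by omega) hw'
  change _ ∈ (S.ch (S.path root p m) m (p m)).V at hw1
  change _ ∈ (S.ch (S.path root p' m) m (p' m)).V at hw2
  rw [h0] at hw1
  rw [h1, ← hν] at hw2
  refine S.h5 _ _ u hmem _ hw1 _ hw2 ?_
  rw [e1, e2, heq]

theorem limu_inj {p p' : C} {n : ℕ} (h : pr p n = pr p' n) {u : Fn → C}
    (hu : u ∈ S.new (S.path root p n) n) (heq : S.limu root p n u = S.limu root p' n u) : p = p' := by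
  by_contra hne
  have hex : ∃ m, p m ≠ p' m := Function.ne_iff.1 hne
  classical
  set m := Nat.find hex with hm
  have hm1 : p m ≠ p' m := Nat.find_spec hex
  have hm2 : ∀ i < m, p i = p' i := fun i hi => by
    have := Nat.find_min hex hi
    push Not at this
    exact this
  have hnm : n ≤ m := by
    by_contra hlt
    push Not at hlt
    exact hm1 (pr_eq_iff.1 h m hlt)
  have hpr : pr p m = pr p' m := pr_eq_iff.2 hm2
  cases hp : p m with
  | false =>
    have hp' : p' m = true := by
      cases hp' : p' m with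
      | false => exact absurd (hp.trans hp'.symm) hm1
      | true => rfl
    exact S.limu_inj_aux root hnm hpr hp hp' hu heq
  | true =>
    have hp' : p' m = false := by
      cases hp' : p' m with
      | true => exact absurd (hp.trans hp'.symm) hm1
      | false => rfl
    refine S.limu_inj_aux root hnm hpr.symm hp' hp ?_ heq.symm
    rw [← S.path_congr root h]; exact hu

theorem tendsto_lim (p : C) : Tendsto (fun k => S.wk root p k) atTop (𝓝 (S.lim root p)) := by
  rw [tendsto_pi_nhds]
  intro q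
  refine tendsto_const_nhds.congr' ?_
  filter_upwards [eventually_ge_atTop (idx q + 2)] with k hk
  exact (S.lim_spec root p q hk (S.wk_mem root p k)).symm

theorem lim_local (p : C) (n : ℕ) : ∀ q ∈ dom (ye n), S.lim root p q ≠ S.lim root p (pnt (ye n)) →
    q ∈ S.J (S.path root p n) n ∨ (∃ c ∈ S.Zc (S.path root p n) n, q ∈ gam E (ye n) c) ∨
      (∃ u ∈ S.new (S.path root p n) n, q ∈ beta (ye n) (S.limu root p n u)) := by
  intro q hq hne
  set k := max n q.L + 2 + n + idx q + idx (pnt (ye n)) with hk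
  have hw := S.wk_mem root p k
  have hw1 := S.mono root p (show n + 1 ≤ k by omega) hw
  have e1 := S.lim_spec root p q (k := k) (by omega) hw
  have e2 := S.lim_spec root p (pnt (ye n)) (k := k) (by omega) hw
  rw [← e1, ← e2] at hne
  rcases S.h3 _ _ _ _ hw1 q hq hne with h | h | ⟨u, hu, hqu⟩
  · exact Or.inl h
  · exact Or.inr (Or.inl h)
  · refine Or.inr (Or.inr ⟨u, hu, ?_⟩)
    exact beta_congr (S.limu_pr root p n q.L (S.new_mem root p n hu) (k := k) (by omega) hw)
      (le_refl _) hqu

theorem exists_branch (D : Set C) (hD : #D < 𝔠) :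
    ∃ p : C, ∀ n, ∀ u ∈ S.new (S.path root p n) n, S.limu root p n u ∉ D := by
  by_contra hcon
  push Not at hcon
  have hcov : (univ : Set C) ⊆ ⋃ j : ℕ × List Bool × ℕ, {p : C | pr p j.1 = j.2.1 ∧
      ∃ u, (S.new (S.path root p j.1) j.1)[j.2.2]? = some u ∧ S.limu root p j.1 u ∈ D} := by
    intro p _
    obtain ⟨n, u, hu, hD'⟩ := hcon p
    obtain ⟨i, hi⟩ := List.mem_iff_getElem?.1 hu
    exact mem_iUnion.2 ⟨(n, pr p n, i), rfl, u, hi, hD'⟩
  have hpiece : ∀ j : ℕ × List Bool × ℕ, #{p : C | pr p j.1 = j.2.1 ∧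
      ∃ u, (S.new (S.path root p j.1) j.1)[j.2.2]? = some u ∧ S.limu root p j.1 u ∈ D} ≤ #D := by
    rintro ⟨n, σ, i⟩
    have hch : ∀ x : {p : C | pr p n = σ ∧
      ∃ u, (S.new (S.path root p n) n)[i]? = some u ∧ S.limu root p n u ∈ D}, ∃ u,
      (S.new (S.path root x.1 n) n)[i]? = some u ∧ S.limu root x.1 n u ∈ D := fun x => x.2.2
    choose u hu hD' using hch
    refine Cardinal.mk_le_of_injective (f := fun x => (⟨S.limu root x.1 n (u x), hD' x⟩ : D)) ?_
    intro x x' hxx
    have hxx' : S.limu root x.1 n (u x) = S.limu root x'.1 n (u x') := congrArg Subtype.val hxx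
    have hpr : pr x.1 n = pr x'.1 n := x.2.1.trans x'.2.1.symm
    have hux : u x = u x' := by
      have h1 := hu x
      rw [S.path_congr root hpr, hu x'] at h1
      exact (Option.some.inj h1).symm
    rw [← hux] at hxx'
    exact Subtype.ext (S.limu_inj root hpr (List.mem_of_getElem? (hu x)) hxx')
  have h1 : #(univ : Set C) ≤ ℵ₀ * #D := by
    refine (Cardinal.mk_le_mk_of_subset hcov).trans ((Cardinal.mk_iUnion_le _).trans ?_)
    refine mul_le_mul' (Cardinal.mk_le_aleph0) ?_
    exact ciSup_le' hpiece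
  have h2 : ℵ₀ * #D < 𝔠 := Cardinal.mul_lt_of_lt Cardinal.aleph0_le_continuum
    Cardinal.aleph0_lt_continuum hD
  have h3 : #(univ : Set C) = 𝔠 := by
    rw [Cardinal.mk_univ]
    simp [C]
  rw [h3] at h1
  exact absurd (h1.trans_lt h2) (lt_irrefl _)

end SD

theorem fusion {E : Set (C × Mark)} (hfun : ∀ z M M', (z, M) ∈ E → (z, M') ∈ E → M = M')
    (hval : ∀ p ∈ E, Valid p.1 p.2)
    {W : Set Fn} (hW : ¬ W.Countable) (hG : ∀ w ∈ W, G0 w)
    (hE : ∀ p ∈ E, {w | w ∈ W ∧ ¬ Resp w p.2}.Countable)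
    {K : Set Fn} (hK : IsClosed K) (hWK : W ⊆ K) {D : Set C} (hD : #D < 𝔠) (hdom : ∀ p ∈ E, p.1 ∈ D) :
    ∃ f ∈ K, G0 f ∧ ∀ p ∈ E, Resp f p.2 := by
  choose new J Zc ch N h1 h2 h3 h4 h5 using step hfun hG hE
  let S : SD E W := ⟨new, J, Zc, ch, N, h1, h2, h3, h4, h5⟩
  let root : Node W := ⟨W, [], hW, le_refl _, by simp⟩
  obtain ⟨p, hp⟩ := S.exists_branch root D hD
  refine ⟨S.lim root p, ?_, ?_, ?_⟩
  · refine hK.mem_of_tendsto (S.tendsto_lim root p) (Eventually.of_forall fun k => hWK ?_)
    exact (S.path root p k).sub (S.wk_mem root p k)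
  · intro y
    obtain ⟨n, rfl⟩ := ye_surj y
    classical
    refine ⟨S.J (S.path root p n) n, S.Zc (S.path root p n) n ∪
      ((S.new (S.path root p n) n).map (fun u => S.limu root p n u)).toFinset, ?_⟩
    intro q hq hne
    rcases S.lim_local root p n q hq hne with h | ⟨c, hc, hqc⟩ | ⟨u, hu, hqu⟩
    · exact Or.inl h
    · exact Or.inr ⟨c, Finset.mem_union_left _ hc, hqc.1⟩
    · refine Or.inr ⟨S.limu root p n u, Finset.mem_union_right _ ?_, hqu⟩
      rw [List.mem_toFinset, List.mem_map]
      exact ⟨u, hu, rfl⟩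
  · rintro ⟨z, M⟩ hM
    obtain ⟨n, hn⟩ := ye_surj M.y
    have hv : Valid z M := hval _ hM
    classical
    have hfin : ((S.J (S.path root p n) n : Set NN) ∪
        (⋃ c ∈ {c | c ∈ S.Zc (S.path root p n) n ∧ c ≠ z}, (M.Q ∩ beta M.y c)) ∪
        (⋃ c ∈ {c | ∃ u ∈ S.new (S.path root p n) n, S.limu root p n u = c}, (M.Q ∩ beta M.y c))).Finite := by
      refine Set.Finite.union (Set.Finite.union (Finset.finite_toSet _) ?_) ?_
      · refine Set.Finite.biUnion ((Finset.finite_toSet (S.Zc (S.path root p n) n)).subset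
          fun c hc => hc.1) fun c hc => hv.inter_finite hc.2
      · refine Set.Finite.biUnion ?_ ?_
        · refine ((S.new (S.path root p n) n).map (fun u => S.limu root p n u)).toFinset.finite_toSet.subset ?_
          rintro c ⟨u, hu, rfl⟩
          simp only [List.coe_toFinset, mem_ofPred_eq, List.mem_map]
          exact ⟨u, hu, rfl⟩
        · rintro c ⟨u, hu, rfl⟩
          refine hv.inter_finite ?_
          intro heq
          exact hp n u hu (by rw [heq]; exact hdom _ hM)
    refine hfin.subset ?_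
    rintro q ⟨hq, hne⟩
    have hqd : q ∈ dom (ye n) := by rw [hn]; exact hv.subset_dom hq
    have hne' : S.lim root p q ≠ S.lim root p (pnt (ye n)) := by rw [hn]; exact hne
    rcases S.lim_local root p n q hqd hne' with h | ⟨c, hc, hqc⟩ | ⟨u, hu, hqu⟩
    · exact Or.inl (Or.inl h)
    · left; right
      rw [mem_iUnion₂]
      refine ⟨c, ⟨hc, ?_⟩, hq, by rw [← hn]; exact hqc.1⟩
      rintro rfl
      exact hqc.2 M hM hn.symm hq
    · right
      rw [mem_iUnion₂]
      exact ⟨S.limu root p n u, ⟨u, hu, rfl⟩, hq, by rw [← hn]; exact hqu⟩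

end CpTwo
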