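import Mathlib
import Pool.Agent.CpTwo.Fusion2

set_option autoImplicit false

namespace CpTwo

open Set Cardinal

/-- finite patterns -/
abbrev Pat := Finset (NN × Bool)

/-- `f` matches the pattern -/
def Mat (f : Fn) (p : Pat) : Prop := ∀ qb ∈ p, f qb.1 = qb.2

/-- cardinality condition on the branch of `t` in the root block -/
def CardC (m : ℕ) (t : C) (f : Fn) : Prop :=
  ∀ Q : Finset NN, (Q : Set NN) ⊆ bz [] t → Q.card = m + 1 → ∃ q ∈ Q, f q ≠ f (.x [])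

/-- the root mark -/
def rm (t : C) : Mark := ⟨some [], bz [] t⟩

theorem valid_rm (t : C) : Valid t (rm t) := by
  refine ⟨bz_infinite _ _, le_refl _, ?_, ?_, ?_⟩
  · rintro q ⟨r, rfl, _⟩; exact ⟨_, _, rfl⟩
  · intro s h; simp [rm] at h
  · intro s h
    simp only [rm, Option.some.injEq] at h
    rw [← h]; exact pfx_nil t

/-- decided points -/
def Dd (E : Set (C × Mark)) (R : Set C) : Set C := Prod.fst '' E ∪ R

/-- candidates -/
def Cand (E : Set (C × Mark)) (R : Set C) (m : ℕ) (S : Finset C) (A : Set Pat) (t : C) (f : Fn) : Prop :=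
  G0 f ∧ (∀ p ∈ A, ¬ Mat f p) ∧ (∀ s ∈ S, CardC m s f) ∧ (∀ p ∈ E, Resp f p.2) ∧
    ∀ t', t' ∈ R ∨ t' = t → t' ∉ S → Resp f (rm t')

/-- tasks -/
abbrev Task := ℕ × Finset C × Set Pat

/-- specification of a stage -/
def Spec (E : Set (C × Mark)) (R : Set C) (τ : Task) (o : Set (C × Mark) × Set C) : Prop :=
  o.1.Countable ∧ o.2.Countable ∧
  (∀ z M M', (z, M) ∈ o.1 → (z, M') ∈ o.1 → M = M') ∧
  (∀ p ∈ o.1, Valid p.1 p.2 ∧ p.2.y ≠ some [] ∧ p.1 ∉ Dd E R ∧ p.1 ∉ o.2) ∧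
  (∀ z ∈ o.2, z ∉ Prod.fst '' E) ∧
  ∃ t ∈ o.2, t ∉ Dd E R ∧ ((∀ s ∈ τ.2.1, s ∉ Prod.fst '' E) → (∃ f, Cand E R τ.1 τ.2.1 τ.2.2 t f) →
    ∃ f, G0 f ∧ (∀ p ∈ τ.2.2, ¬ Mat f p) ∧ (∀ s ∈ τ.2.1, CardC τ.1 s f) ∧ (∀ p ∈ E, Resp f p.2) ∧
      (∀ t', t' ∈ R ∨ t' ∈ o.2 → t' ∉ τ.2.1 → Resp f (rm t')) ∧ (∀ p ∈ o.1, Resp f p.2) ∧
      Act f ⊆ Dd E R ∪ o.2 ∪ Prod.fst '' o.1)

theorem exists_spec (E : Set (C × Mark)) (R : Set C) (τ : Task) (hD : #(Dd E R) < 𝔠) :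
    ∃ o, Spec E R τ o := by
  classical
  obtain ⟨m, S, A⟩ := τ
  obtain ⟨t, ht⟩ : ∃ t, t ∉ Dd E R := by
    by_contra h
    push Not at h
    have : Dd E R = Set.univ := eq_univ_of_forall h
    rw [this, Cardinal.mk_univ] at hD
    simp [C] at hD
  by_cases h : (∀ s ∈ S, s ∉ Prod.fst '' E) ∧ ∃ f, Cand E R m S A t f
  · obtain ⟨hS, f, hG, hA, hc, hE, hR⟩ := h
    have hmk : ∀ z, ∃ M, Valid z M ∧ M.y ≠ some [] ∧ Resp f M := fun z => exists_mark hG z
    choose mk hmk using hmk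
    refine ⟨((fun z => (z, mk z)) '' (Act f \ (Dd E R ∪ (S ∪ {t}))), S ∪ {t}), ?_, ?_, ?_, ?_, ?_, ?_⟩
    · exact ((countable_act hG).mono (fun z hz => hz.1)).image _
    · exact (S.countable_toSet).union (countable_singleton t)
    · rintro z M M' ⟨a, _, ha⟩ ⟨b, _, hb⟩
      simp only [Prod.mk.injEq] at ha hb
      rw [← ha.2, ← hb.2, ha.1, hb.1]
    · rintro ⟨z, M⟩ ⟨a, ha, hb⟩
      simp only [Prod.mk.injEq] at hb
      obtain ⟨rfl, rfl⟩ := hb
      refine ⟨(hmk a).1, (hmk a).2.1, fun h => ha.2 (Or.inl h), fun h => ha.2 (Or.inr h)⟩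
    · rintro z (hz | hz)
      · exact hS z hz
      · rw [mem_singleton_iff] at hz
        rw [hz]; exact fun h => ht (Or.inl h)
    · refine ⟨t, Or.inr rfl, ht, fun _ _ => ⟨f, hG, hA, hc, hE, ?_, ?_, ?_⟩⟩
      · rintro t' (h' | h' | h') hS'
        · exact hR t' (Or.inl h') hS'
        · exact absurd h' hS'
        · exact hR t' (Or.inr h') hS'
      · rintro ⟨z, M⟩ ⟨a, ha, hb⟩
        simp only [Prod.mk.injEq] at hb
        obtain ⟨rfl, rfl⟩ := hb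
        exact (hmk a).2.2
      · intro z hz
        by_cases h1 : z ∈ Dd E R ∪ (S ∪ {t})
        · rcases h1 with h1 | h1
          · exact Or.inl (Or.inl h1)
          · exact Or.inl (Or.inr h1)
        · exact Or.inr ⟨(z, mk z), ⟨z, ⟨hz, h1⟩, rfl⟩, rfl⟩
  · refine ⟨(∅, {t}), countable_empty, countable_singleton t, by simp, by simp, ?_, ?_⟩
    · rintro z hz
      rw [mem_singleton_iff] at hz
      rw [hz]; exact fun h => ht (Or.inl h)
    · exact ⟨t, rfl, ht, fun h1 h2 => absurd ⟨h1, h2⟩ h⟩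

/-- index type -/
abbrev Idx := (Cardinal.continuum.{0}).ord.ToType

theorem mk_task : #Task ≤ #Idx := by
  rw [Cardinal.mk_ord_toType]
  have h1 : #(Finset C) = 𝔠 := by
    rw [Cardinal.mk_finset_of_infinite]; simp [C]
  have h2 : #(Set Pat) ≤ 𝔠 := by
    rw [Cardinal.mk_set]
    calc (2 : Cardinal) ^ #Pat ≤ 2 ^ ℵ₀ := Cardinal.power_le_power_left two_ne_zero Cardinal.mk_le_aleph0
      _ = 𝔠 := Cardinal.two_power_aleph0
  simp only [Task, Cardinal.mk_prod, Cardinal.lift_id, h1]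
  calc #ℕ * (𝔠 * #(Set Pat)) ≤ 𝔠 * (𝔠 * 𝔠) := by
        refine mul_le_mul' ?_ (mul_le_mul' le_rfl h2)
        rw [Cardinal.mk_nat]; exact Cardinal.aleph0_le_continuum
    _ = 𝔠 := by rw [Cardinal.continuum_mul_self, Cardinal.continuum_mul_self]

instance : Nonempty Task := ⟨(0, ∅, ∅)⟩

theorem exists_task : ∃ f : Idx → Task, Function.Surjective f := by
  obtain ⟨g⟩ := mk_task
  exact ⟨Function.invFun g, Function.invFun_surjective g.injective⟩

/-- enumeration of tasks -/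
noncomputable def task : Idx → Task := Classical.choose exists_task
theorem task_surj : Function.Surjective task := Classical.choose_spec exists_task

open Classical in
/-- the output of a stage -/
noncomputable def out (τ : Task) (E : Set (C × Mark)) (R : Set C) : Set (C × Mark) × Set C :=
  if h : ∃ o, Spec E R τ o then Classical.choose h else (∅, ∅)

theorem out_spec (τ : Task) (E : Set (C × Mark)) (R : Set C) (h : ∃ o, Spec E R τ o) :
    Spec E R τ (out τ E R) := by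
  unfold out
  rw [dif_pos h]
  exact Classical.choose_spec h

/-- the recursion -/
noncomputable def st : Idx → Set (C × Mark) × Set C :=
  (wellFounded_lt (α := Idx)).fix (fun α prev =>
    out (task α) (⋃ β : {β // β < α}, (prev β.1 β.2).1) (⋃ β : {β // β < α}, (prev β.1 β.2).2))

/-- marks before `α` -/
def Eb (α : Idx) : Set (C × Mark) := ⋃ β : {β // β < α}, (st β.1).1
/-- reserved before `α` -/
def Rb (α : Idx) : Set C := ⋃ β : {β // β < α}, (st β.1).2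

theorem st_eq (α : Idx) : st α = out (task α) (Eb α) (Rb α) := by
  unfold st
  rw [WellFounded.fix_eq]
  rfl

theorem mk_Dd (α : Idx) (h : ∀ β < α, (st β).1.Countable ∧ (st β).2.Countable) :
    #(Dd (Eb α) (Rb α)) < 𝔠 := by
  have h1 : Dd (Eb α) (Rb α) ⊆ ⋃ β : {β // β < α}, (Prod.fst '' (st β.1).1 ∪ (st β.1).2) := by
    rintro z (⟨p, hp, rfl⟩ | hz)
    · obtain ⟨β, hβ⟩ := mem_iUnion.1 hp
      exact mem_iUnion.2 ⟨β, Or.inl ⟨p, hβ, rfl⟩⟩
    · obtain ⟨β, hβ⟩ := mem_iUnion.1 hz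
      exact mem_iUnion.2 ⟨β, Or.inr hβ⟩
  refine ((Cardinal.mk_le_mk_of_subset h1).trans ((Cardinal.mk_iUnion_le _).trans ?_)).trans_lt
    (Cardinal.mul_lt_of_lt Cardinal.aleph0_le_continuum (c := 𝔠) (a := #{β // β < α}) (b := ℵ₀) ?_
      Cardinal.aleph0_lt_continuum)
  · refine mul_le_mul' le_rfl (ciSup_le' fun β => ?_)
    exact (((h β.1 β.2).1.image _).union (h β.1 β.2).2).le_aleph0
  · exact Cardinal.mk_Iio_toType_ord_lt α

theorem st_spec (α : Idx) : Spec (Eb α) (Rb α) (task α) (st α) := by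
  induction α using WellFoundedLT.induction with
  | ind α ih =>
    rw [st_eq]
    apply out_spec
    apply exists_spec
    exact mk_Dd α fun β hβ => ⟨(ih β hβ).1, (ih β hβ).2.1⟩

/-- all marks -/
def EE : Set (C × Mark) := ⋃ α, (st α).1
/-- the set `T` -/
def TT : Set C := {z | z ∉ Prod.fst '' EE}

theorem mem_Eb {α β : Idx} (h : α < β) {p : C × Mark} (hp : p ∈ (st α).1) : p ∈ Eb β :=
  mem_iUnion.2 ⟨⟨α, h⟩, hp⟩
theorem mem_Rb {α β : Idx} (h : α < β) {z : C} (hp : z ∈ (st α).2) : z ∈ Rb β :=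
  mem_iUnion.2 ⟨⟨α, h⟩, hp⟩

theorem EE_fun : ∀ z M M', (z, M) ∈ EE → (z, M') ∈ EE → M = M' := by
  intro z M M' h h'
  obtain ⟨α, hα⟩ := mem_iUnion.1 h
  obtain ⟨β, hβ⟩ := mem_iUnion.1 h'
  rcases lt_trichotomy α β with hlt | rfl | hlt
  · exact absurd (Or.inl ⟨_, mem_Eb hlt hα, rfl⟩) ((st_spec β).2.2.2.1 _ hβ).2.2.1
  · exact (st_spec α).2.2.1 z M M' hα hβ
  · exact absurd (Or.inl ⟨_, mem_Eb hlt hβ, rfl⟩) ((st_spec α).2.2.2.1 _ hα).2.2.1

theorem EE_valid : ∀ p ∈ EE, Valid p.1 p.2 ∧ p.2.y ≠ some [] := by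
  intro p hp
  obtain ⟨α, hα⟩ := mem_iUnion.1 hp
  exact ⟨((st_spec α).2.2.2.1 _ hα).1, ((st_spec α).2.2.2.1 _ hα).2.1⟩

theorem st_two_sub (α : Idx) : (st α).2 ⊆ TT := by
  rintro z hz ⟨p, hp, rfl⟩
  obtain ⟨β, hβ⟩ := mem_iUnion.1 hp
  rcases lt_trichotomy α β with hlt | rfl | hlt
  · exact ((st_spec β).2.2.2.1 _ hβ).2.2.1 (Or.inr (mem_Rb hlt hz))
  · exact ((st_spec α).2.2.2.1 _ hβ).2.2.2 hz
  · exact (st_spec α).2.2.2.2.1 _ hz ⟨p, mem_Eb hlt hβ, rfl⟩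

theorem TT_uncountable : ¬ TT.Countable := by
  intro hc
  have hex : ∀ α : Idx, ∃ t, t ∈ (st α).2 ∧ t ∉ Dd (Eb α) (Rb α) := fun α => by
    obtain ⟨t, h1, h2, _⟩ := (st_spec α).2.2.2.2.2
    exact ⟨t, h1, h2⟩
  choose t ht using hex
  have hinj : Function.Injective (fun α => (⟨t α, st_two_sub α (ht α).1⟩ : TT)) := by
    intro α β h
    have h' : t α = t β := congrArg Subtype.val h
    rcases lt_trichotomy α β with hlt | rfl | hlt
    · exact absurd (Or.inr (mem_Rb hlt (h' ▸ (ht α).1))) (ht β).2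
    · rfl
    · exact absurd (Or.inr (mem_Rb hlt (h'.symm ▸ (ht β).1))) (ht α).2
  have h1 : #Idx ≤ #TT := Cardinal.mk_le_of_injective hinj
  rw [Cardinal.mk_ord_toType] at h1
  exact absurd (h1.trans hc.le_aleph0) (not_le.2 Cardinal.aleph0_lt_continuum)

theorem isClosed_mat (p : Pat) : IsClosed {f : Fn | ¬ Mat f p} := by
  have : {f : Fn | ¬ Mat f p} = ⋃ qb ∈ p, {f : Fn | f qb.1 ≠ qb.2} := by
    ext f
    simp only [Mat, mem_ofPred_eq, mem_iUnion, exists_prop]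
    push Not
    rfl
  rw [this]
  refine Set.Finite.isClosed_biUnion p.finite_toSet fun qb _ => ?_
  have hcont : Continuous (fun f : Fn => f qb.1) := continuous_apply qb.1
  exact IsClosed.preimage hcont (isClosed_discrete {b : Bool | b ≠ qb.2})

theorem isClosed_card (m : ℕ) (t : C) : IsClosed {f : Fn | CardC m t f} := by
  have : {f : Fn | CardC m t f} = ⋂ (Q : Finset NN), ⋂ (_ : (Q : Set NN) ⊆ bz [] t),
      ⋂ (_ : Q.card = m + 1), ⋃ q ∈ Q, {f : Fn | f q ≠ f (.x [])} := by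
    ext f
    simp only [CardC, mem_ofPred_eq, mem_iInter, mem_iUnion, exists_prop]
  rw [this]
  refine isClosed_iInter fun Q => isClosed_iInter fun _ => isClosed_iInter fun _ =>
    Set.Finite.isClosed_biUnion Q.finite_toSet fun q _ => ?_
  have hcont : Continuous (fun f : Fn => (f q, f (NN.x []))) := by fun_prop
  exact IsClosed.preimage hcont (isClosed_discrete {b : Bool × Bool | b.1 ≠ b.2})

theorem BP (m : ℕ) (S : Finset C) (hS : ∀ s ∈ S, s ∈ TT) (A : Set Pat) {W : Set Fn}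
    (hW : ¬ W.Countable) (hG : ∀ w ∈ W, G0 w) (hE : ∀ w ∈ W, ∀ p ∈ EE, Resp w p.2)
    (hA : ∀ w ∈ W, ∀ p ∈ A, ¬ Mat w p) (hc : ∀ w ∈ W, ∀ s ∈ S, CardC m s w)
    (hT : ∀ t ∈ TT, t ∉ S → {w | w ∈ W ∧ ¬ Resp w (rm t)}.Countable) :
    ∃ f, G0 f ∧ (∀ p ∈ EE, Resp f p.2) ∧ (∀ p ∈ A, ¬ Mat f p) ∧ (∀ s ∈ S, CardC m s f) ∧
      ∀ t ∈ TT, t ∉ S → Resp f (rm t) := by
  obtain ⟨α, hα⟩ := task_surj (m, S, A)
  have hsp := st_spec α
  obtain ⟨hs1, hs2, hs3, hs4, hs5, t, ht, htD, hmain⟩ := hsp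
  rw [hα] at hmain
  have htT : t ∈ TT := st_two_sub α ht
  have hRT : ∀ t', t' ∈ Rb α ∨ t' = t → t' ∈ TT := by
    rintro t' (h | rfl)
    · obtain ⟨β, hβ⟩ := mem_iUnion.1 h
      exact st_two_sub β.1 hβ
    · exact htT
  have hEbEE : Eb α ⊆ EE := by
    intro p hp
    obtain ⟨β, hβ⟩ := mem_iUnion.1 hp
    exact mem_iUnion.2 ⟨β.1, hβ⟩
  have hSE : ∀ s ∈ S, s ∉ Prod.fst '' Eb α := fun s hs h => hS s hs (image_mono hEbEE h)
  have hcard : #(Dd (Eb α) (Rb α)) < 𝔠 := mk_Dd α fun β _ => ⟨(st_spec β).1, (st_spec β).2.1⟩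
  have hcand : ∃ f, Cand (Eb α) (Rb α) m S A t f := by
    obtain ⟨f, hfK, hfG, hfE⟩ := fusion
      (E := Eb α ∪ (fun t' => (t', rm t')) '' {t' | (t' ∈ Rb α ∨ t' = t) ∧ t' ∉ S})
      (W := W) (K := {f | (∀ p ∈ A, ¬ Mat f p) ∧ ∀ s ∈ S, CardC m s f})
      (D := Dd (Eb α) (Rb α) ∪ {t}) (by
        rintro z M M' (h | ⟨a, ha, hb⟩) (h' | ⟨a', ha', hb'⟩)
        · exact EE_fun z M M' (hEbEE h) (hEbEE h')
        · simp only [Prod.mk.injEq] at hb'
          exact absurd ⟨_, hEbEE h, rfl⟩ (hb'.1 ▸ hRT a' ha'.1)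
        · simp only [Prod.mk.injEq] at hb
          exact absurd ⟨_, hEbEE h', rfl⟩ (hb.1 ▸ hRT a ha.1)
        · simp only [Prod.mk.injEq] at hb hb'
          rw [← hb.2, ← hb'.2, hb.1, hb'.1]) (by
        rintro ⟨z, M⟩ (h | ⟨a, ha, hb⟩)
        · exact (EE_valid _ (hEbEE h)).1
        · simp only [Prod.mk.injEq] at hb
          obtain ⟨rfl, rfl⟩ := hb
          exact valid_rm a) hW hG (by
        rintro ⟨z, M⟩ (h | ⟨a, ha, hb⟩)
        · refine countable_empty.mono ?_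
          rintro w ⟨hw, hr⟩
          exact hr (hE w hw _ (hEbEE h))
        · simp only [Prod.mk.injEq] at hb
          obtain ⟨rfl, rfl⟩ := hb
          exact hT a (hRT a ha.1) ha.2) (by
        have : {f : Fn | (∀ p ∈ A, ¬ Mat f p) ∧ ∀ s ∈ S, CardC m s f} =
            (⋂ p ∈ A, {f : Fn | ¬ Mat f p}) ∩ ⋂ s ∈ S, {f : Fn | CardC m s f} := by
          ext f; simp
        rw [this]
        exact (isClosed_biInter fun p _ => isClosed_mat p).inter
          (isClosed_biInter fun s _ => isClosed_card m s)) (fun w hw => ⟨hA w hw, hc w hw⟩) (by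
        refine (Cardinal.mk_union_le _ _).trans_lt ?_
        refine Cardinal.add_lt_of_lt Cardinal.aleph0_le_continuum hcard ?_
        rw [Cardinal.mk_singleton]
        exact Cardinal.one_lt_aleph0.trans Cardinal.aleph0_lt_continuum) (by
        rintro ⟨z, M⟩ (h | ⟨a, ha, hb⟩)
        · exact Or.inl (Or.inl ⟨_, h, rfl⟩)
        · simp only [Prod.mk.injEq] at hb
          obtain ⟨rfl, rfl⟩ := hb
          rcases ha.1 with h | rfl
          · exact Or.inl (Or.inr h)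
          · exact Or.inr rfl)
    refine ⟨f, hfG, hfK.1, hfK.2, fun p hp => hfE p (Or.inl hp), fun t' h1 h2 => ?_⟩
    exact hfE (t', rm t') (Or.inr ⟨t', ⟨h1, h2⟩, rfl⟩)
  obtain ⟨f, h1, h2, h3, h4, h5, h6, h7⟩ := hmain hSE hcand
  refine ⟨f, h1, ?_, h2, h3, ?_⟩
  · rintro ⟨z, M⟩ hp
    obtain ⟨β, hβ⟩ := mem_iUnion.1 hp
    rcases lt_trichotomy α β with hlt | rfl | hlt
    · by_contra hr
      have hact : z ∈ Act f := ⟨M, (EE_valid _ hp).1, hr⟩
      refine ((st_spec β).2.2.2.1 _ hβ).2.2.1 ?_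
      have hEbm : Eb α ⊆ Eb β := by
        intro p hp
        obtain ⟨γ, hγ⟩ := mem_iUnion.1 hp
        exact mem_Eb (γ.2.trans hlt) hγ
      have hRbm : Rb α ⊆ Rb β := by
        intro p hp
        obtain ⟨γ, hγ⟩ := mem_iUnion.1 hp
        exact mem_Rb (γ.2.trans hlt) hγ
      rcases h7 hact with ((h | h) | h) | h
      · exact Or.inl (image_mono hEbm h)
      · exact Or.inr (hRbm h)
      · exact Or.inr (mem_Rb hlt h)
      · obtain ⟨p', hp', hz⟩ := h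
        exact Or.inl ⟨p', mem_Eb hlt hp', hz⟩
    · exact h6 _ hβ
    · exact h4 _ (mem_Eb hlt hβ)
  · intro t' ht' hS'
    by_contra hr
    have hact : t' ∈ Act f := ⟨rm t', valid_rm t', hr⟩
    rcases h7 hact with (h | h) | h
    · rcases h with h | h
      · exact ht' (image_mono hEbEE h)
      · exact hr (h5 t' (Or.inl h) hS')
    · exact hr (h5 t' (Or.inr h) hS')
    · obtain ⟨p, hp, rfl⟩ := h
      exact ht' ⟨p, mem_iUnion.2 ⟨α, hp⟩, rfl⟩

end CpTwo
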