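import Mathlib
import Pool.Agent.CpTwo.Rec

set_option autoImplicit false

namespace CpTwo

open Set Topology

/-- the space -/
def XX : Type := NN ⊕ TT

/-- points of the countable part -/
def il (q : NN) : XX := Sum.inl q
/-- the added points -/
def ir (t : TT) : XX := Sum.inr t

/-- restriction to the countable part -/
def rs (F : XX → Bool) : Fn := fun q => F (il q)

/-- the algebra of clopen sets -/
def BB : Set (XX → Bool) :=
  {F | G0 (rs F) ∧ (∀ p ∈ EE, Resp (rs F) p.2) ∧
    ∀ t : TT, {q | q ∈ bz [] t.1 ∧ rs F q ≠ F (ir t)}.Finite}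

/-- evaluation -/
def ev (x : XX) : BB → Bool := fun F => F.1 x

instance : TopologicalSpace XX := TopologicalSpace.induced ev inferInstance

theorem continuous_ev : Continuous ev := continuous_induced_dom

theorem continuous_of_mem {F : XX → Bool} (hF : F ∈ BB) : Continuous F :=
  (continuous_apply (⟨F, hF⟩ : BB)).comp continuous_ev

theorem exists_nhd {U : Set XX} (hU : IsOpen U) {x0 : XX} (hx : x0 ∈ U) :
    ∃ I : Finset BB, ∀ x, (∀ g ∈ I, g.1 x = g.1 x0) → x ∈ U := by
  obtain ⟨V, hV, rfl⟩ := isOpen_induced_iff.1 hU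
  obtain ⟨I, u, hu, hsub⟩ := isOpen_pi_iff.1 hV (ev x0) hx
  refine ⟨I, fun x h => hsub ?_⟩
  intro g hg
  have : ev x g = ev x0 g := h g hg
  rw [this]
  exact (hu g hg).2

theorem mem_of_continuous {F : XX → Bool} (hF : Continuous F) : F ∈ BB := by
  have key : ∀ x0 : XX, ∃ I : Finset BB, ∀ x, F x ≠ F x0 → ∃ g ∈ I, g.1 x ≠ g.1 x0 := by
    intro x0
    have hU : IsOpen {x | F x = F x0} := (isOpen_discrete {b : Bool | b = F x0}).preimage hF
    obtain ⟨I, hI⟩ := exists_nhd hU (show x0 ∈ {x | F x = F x0} from rfl)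
    refine ⟨I, fun x hx => ?_⟩
    by_contra h
    push Not at h
    exact hx (hI x h)
  classical
  refine ⟨?_, ?_, ?_⟩
  · intro y
    obtain ⟨I, hI⟩ := key (il (pnt y))
    have hg : ∀ g : BB, ∃ (J : Finset NN) (Z : Finset C), ∀ q ∈ dom y, rs g.1 q ≠ rs g.1 (pnt y) →
      q ∈ J ∨ ∃ z ∈ Z, q ∈ beta y z := fun g => g.2.1 y
    choose J Z h using hg
    refine ⟨I.biUnion J, I.biUnion Z, fun q hq hne => ?_⟩
    obtain ⟨g, hgI, hgne⟩ := hI (il q) hne
    rcases h g q hq hgne with h1 | ⟨z, h1, h2⟩
    · exact Or.inl (Finset.mem_biUnion.2 ⟨g, hgI, h1⟩)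
    · exact Or.inr ⟨z, Finset.mem_biUnion.2 ⟨g, hgI, h1⟩, h2⟩
  · intro p hp
    obtain ⟨I, hI⟩ := key (il (pnt p.2.y))
    have hfin : (⋃ g ∈ I, {q | q ∈ p.2.Q ∧ rs g.1 q ≠ rs g.1 (pnt p.2.y)}).Finite :=
      I.finite_toSet.biUnion fun g _ => g.2.2.1 p hp
    refine hfin.subset ?_
    rintro q ⟨hq, hne⟩
    obtain ⟨g, hgI, hgne⟩ := hI (il q) hne
    exact mem_iUnion₂.2 ⟨g, hgI, hq, hgne⟩
  · intro t
    obtain ⟨I, hI⟩ := key (ir t)
    have hfin : (⋃ g ∈ I, {q | q ∈ bz [] t.1 ∧ rs g.1 q ≠ g.1 (ir t)}).Finite :=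
      I.finite_toSet.biUnion fun g _ => g.2.2.2 t
    refine hfin.subset ?_
    rintro q ⟨hq, hne⟩
    obtain ⟨g, hgI, hgne⟩ := hI (il q) hne
    exact mem_iUnion₂.2 ⟨g, hgI, hq, hgne⟩

theorem continuous_iff {F : XX → Bool} : Continuous F ↔ F ∈ BB :=
  ⟨mem_of_continuous, continuous_of_mem⟩

theorem basis_clopen : TopologicalSpace.IsTopologicalBasis {s : Set XX | IsClopen s} := by
  refine TopologicalSpace.isTopologicalBasis_of_isOpen_of_nhds (fun u hu => hu.2) ?_
  intro a u ha hu
  obtain ⟨I, hI⟩ := exists_nhd hu ha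
  refine ⟨⋂ g ∈ I, {x | g.1 x = g.1 a}, ?_, ?_, ?_⟩
  · refine isClopen_biInter_finset fun g _ => ?_
    exact (isClopen_discrete {b : Bool | b = g.1 a}).preimage (continuous_of_mem g.2)
  · exact mem_iInter₂.2 fun g _ => rfl
  · intro x hx
    exact hI x (mem_iInter₂.1 hx)

/-! ### elements of `BB` -/

/-- a point of the Cantor set extending `s` -/
def ext (s : List Bool) : C := fun i => s.getD i false
theorem pfx_ext (s : List Bool) : Pfx s (ext s) := by
  unfold Pfx pr ext
  apply List.ext_getElem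
  · simp
  · intro n h1 h2
    simp only [List.getElem_map, List.getElem_range]
    rw [List.getD_eq_getElem _ _ h1]

open Classical in
/-- characteristic function of an isolated point -/
noncomputable def deltaF (s r : List Bool) : XX → Bool
  | Sum.inl q => decide (q = NN.iso s r)
  | Sum.inr _ => false

open Classical in
/-- characteristic function of a block -/
noncomputable def blkF (s : List Bool) : XX → Bool
  | Sum.inl q => decide (q = NN.x s ∨ q ∈ blk s)
  | Sum.inr _ => decide (s = [])

open Classical in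
/-- characteristic function of a root branch -/
noncomputable def braF (x : C) : XX → Bool
  | Sum.inl q => decide (q ∈ bz [] x)
  | Sum.inr t => decide (t.1 = x)

theorem deltaF_mem (s r : List Bool) : deltaF s r ∈ BB := by
  have h1 : ∀ q, rs (deltaF s r) q = true ↔ q = NN.iso s r := by
    intro q; simp [rs, deltaF, il]
  have hp : ∀ y, rs (deltaF s r) (pnt y) = false := by
    intro y
    cases y <;> simp [rs, deltaF, il, pnt]
  have h2 : {q | rs (deltaF s r) q ≠ false}.Finite := by
    refine (finite_singleton (NN.iso s r)).subset fun q hq => ?_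
    simp only [ne_eq, Bool.not_eq_false, mem_ofPred_eq] at hq
    exact (h1 q).1 hq
  refine ⟨?_, ?_, ?_⟩
  · intro y
    refine ⟨h2.toFinset, ∅, fun q _ hne => Or.inl ?_⟩
    rw [hp] at hne
    exact (Set.Finite.mem_toFinset _).2 hne
  · intro p _
    refine h2.subset ?_
    rintro q ⟨_, hne⟩
    rw [hp] at hne
    exact hne
  · intro t
    refine h2.subset ?_
    rintro q ⟨_, hne⟩
    exact hne

theorem blkF_mem (s : List Bool) : blkF s ∈ BB := by
  have hq : ∀ q, rs (blkF s) q = true ↔ q = NN.x s ∨ q ∈ blk s := by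
    intro q; simp [rs, blkF, il]
  have hinf : rs (blkF s) NN.inf = false := by
    rw [← Bool.not_eq_true, hq]
    rintro (h | ⟨r, h⟩) <;> cases h
  have hconst : ∀ s' r, rs (blkF s) (NN.iso s' r) = rs (blkF s) (NN.x s') := by
    intro s' r
    rw [Bool.eq_iff_iff, hq, hq]
    constructor
    · rintro (h | ⟨r', h⟩)
      · cases h
      · simp only [NN.iso.injEq] at h
        left; rw [h.1]
    · rintro (h | ⟨r', h⟩)
      · simp only [NN.x.injEq] at h
        right; exact ⟨r, by rw [h]⟩
      · cases h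
  have hroot : ∀ t : TT, ∀ q ∈ bz [] t.1, rs (blkF s) q = blkF s (ir t) := by
    rintro t q ⟨r, rfl, _⟩
    rw [hconst, Bool.eq_iff_iff, hq]
    simp only [blkF, ir, decide_eq_true_eq]
    constructor
    · rintro (h | ⟨r', h⟩)
      · simp only [NN.x.injEq] at h
        exact h.symm
      · cases h
    · intro h; left; rw [h]
  refine ⟨?_, ?_, ?_⟩
  · intro y
    cases y with
    | none =>
      refine ⟨∅, {ext s}, fun q _ hne => Or.inr ⟨ext s, Finset.mem_singleton_self _, ?_⟩⟩
      change rs (blkF s) q ≠ rs (blkF s) NN.inf at hne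
      rw [hinf, ne_eq, Bool.not_eq_false, hq] at hne
      rcases hne with rfl | ⟨r, rfl⟩
      · exact pfx_ext s
      · exact pfx_ext s
    | some s' =>
      refine ⟨∅, ∅, ?_⟩
      rintro q ⟨r, rfl⟩ hne
      exact absurd (hconst s' r) hne
  · rintro ⟨z, ⟨y, Q⟩⟩ hp
    have hv := (EE_valid _ hp).1
    cases y with
    | none =>
      refine (hv.2.2.2.1 s rfl).subset ?_
      rintro q ⟨hqQ, hne⟩
      refine ⟨hqQ, ?_⟩
      change rs (blkF s) q ≠ rs (blkF s) NN.inf at hne
      rw [hinf, ne_eq, Bool.not_eq_false, hq] at hne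
      rcases hne with rfl | h
      · obtain ⟨s', r', h'⟩ := hv.2.2.1 _ hqQ
        cases h'
      · exact h
    | some s' =>
      refine finite_empty.subset ?_
      rintro q ⟨hqQ, hne⟩
      obtain ⟨r, rfl⟩ := hv.subset_dom hqQ
      exact hne (hconst s' r)
  · intro t
    refine finite_empty.subset ?_
    rintro q ⟨hqb, hne⟩
    exact hne (hroot t q hqb)

theorem braF_mem (x : C) : braF x ∈ BB := by
  have hq : ∀ q, rs (braF x) q = true ↔ q ∈ bz [] x := by
    intro q; simp [rs, braF, il]
  have hp : ∀ y, rs (braF x) (pnt y) = false := by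
    intro y
    rw [← Bool.not_eq_true, hq]
    cases y
    · rintro ⟨r, h, _⟩; cases h
    · rintro ⟨r, h, _⟩; cases h
  refine ⟨?_, ?_, ?_⟩
  · intro y
    refine ⟨∅, {x}, fun q hqd hne => Or.inr ⟨x, Finset.mem_singleton_self _, ?_⟩⟩
    rw [hp, ne_eq, Bool.not_eq_false, hq] at hne
    obtain ⟨r, rfl, hr⟩ := hne
    cases y with
    | none => exact pfx_nil x
    | some s' =>
      obtain ⟨r', h'⟩ := hqd
      simp only [NN.iso.injEq] at h'
      exact ⟨r, by rw [← h'.1], hr⟩
  · rintro ⟨z, ⟨y, Q⟩⟩ hpE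
    have hv := (EE_valid _ hpE).1
    cases y with
    | none =>
      refine (hv.2.2.2.1 [] rfl).subset ?_
      rintro q ⟨hqQ, hne⟩
      refine ⟨hqQ, ?_⟩
      change rs (braF x) q ≠ rs (braF x) (pnt none) at hne
      rw [hp, ne_eq, Bool.not_eq_false, hq] at hne
      obtain ⟨r, rfl, _⟩ := hne
      exact ⟨r, rfl⟩
    | some s' =>
      refine finite_empty.subset ?_
      rintro q ⟨hqQ, hne⟩
      change rs (braF x) q ≠ rs (braF x) (pnt (some s')) at hne
      rw [hp, ne_eq, Bool.not_eq_false, hq] at hne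
      obtain ⟨r, rfl, _⟩ := hne
      obtain ⟨r', h'⟩ := hv.subset_dom hqQ
      simp only [NN.iso.injEq] at h'
      exact (EE_valid _ hpE).2 (by rw [← h'.1])
  · intro t
    by_cases htx : t.1 = x
    · refine finite_empty.subset ?_
      rintro q ⟨hqb, hne⟩
      apply hne
      rw [Bool.eq_iff_iff, hq]
      simp only [braF, ir, decide_eq_true_eq]
      rw [← htx]
      exact ⟨fun _ => rfl, fun _ => hqb⟩
    · refine (bz_inter_finite (s := []) htx).subset ?_
      rintro q ⟨hqb, hne⟩
      refine ⟨hqb, ?_⟩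
      have h0 : braF x (ir t) = false := by simp [braF, ir, htx]
      rw [h0, ne_eq, Bool.not_eq_false, hq] at hne
      exact hne

theorem deltaF_true {s r : List Bool} {b : XX} (h : deltaF s r b = true) : b = il (NN.iso s r) := by
  rcases b with q | t
  · have : q = NN.iso s r := by simpa [deltaF] using h
    rw [this]; rfl
  · simp [deltaF] at h

theorem ev_aux {a b : XX} (hev : ∀ F ∈ BB, F a = F b) {s r : List Bool} (ha : a = il (NN.iso s r)) :
    b = il (NN.iso s r) := by
  apply deltaF_true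
  rw [← hev _ (deltaF_mem s r), ha]
  simp [deltaF, il]

theorem ev_aux2 {a b : XX} (hev : ∀ F ∈ BB, F a = F b) {s : List Bool} (ha : a = il (NN.x s)) :
    a = b ∨ ∃ t : TT, b = ir t := by
  have h1 := hev _ (blkF_mem s)
  have h2 : blkF s a = true := by rw [ha]; simp [blkF, il]
  rw [h2] at h1
  rcases b with q | t
  · left
    have h3 : q = NN.x s ∨ q ∈ blk s := by
      have := h1.symm
      simpa [blkF] using this
    rcases h3 with rfl | ⟨r, rfl⟩
    · exact ha
    · have h4 := ev_aux (fun F hF => (hev F hF).symm) (a := il (NN.iso s r)) (b := a) rfl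
      exact h4
  · exact Or.inr ⟨t, rfl⟩

theorem ev_aux3 {a b : XX} (hev : ∀ F ∈ BB, F a = F b) {t : TT} (ha : a = ir t) : a = b := by
  have h1 := hev _ (braF_mem t.1)
  have h2 : braF t.1 a = true := by rw [ha]; simp [braF, ir]
  rw [h2] at h1
  rcases b with q | t'
  · have h3 : q ∈ bz [] t.1 := by
      have := h1.symm
      simpa [braF] using this
    obtain ⟨r, rfl, _⟩ := h3
    exact ev_aux (fun F hF => (hev F hF).symm) (a := il (NN.iso [] r)) (b := a) rfl
  · have h3 : t'.1 = t.1 := by
      have := h1.symm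
      simpa [braF] using this
    rw [ha, ← Subtype.ext h3]; rfl

theorem ev_injective : Function.Injective ev := by
  intro a b hab
  have hev : ∀ F ∈ BB, F a = F b := fun F hF => congrFun hab ⟨F, hF⟩
  have hev' : ∀ F ∈ BB, F b = F a := fun F hF => (hev F hF).symm
  rcases a with a | a
  · rcases b with b | b
    · cases a with
      | iso s r => exact (ev_aux hev (s := s) (r := r) rfl).symm
      | x s =>
        rcases ev_aux2 hev (s := s) rfl with h | ⟨t, h⟩
        · exact h
        · cases h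
      | inf =>
        cases b with
        | iso s r => exact (ev_aux hev' (s := s) (r := r) rfl)
        | x s =>
          rcases ev_aux2 hev' (s := s) rfl with h | ⟨t, h⟩
          · exact h.symm
          · cases h
        | inf => rfl
    · exact (ev_aux3 hev' (t := b) rfl).symm
  · exact ev_aux3 hev (t := a) rfl

instance : T2Space XX := T2Space.of_injective_continuous ev_injective continuous_ev

end CpTwo
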