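import Mathlib
import Pool.Agent.CpTwo.Space

set_option autoImplicit false

namespace CpTwo

open Set Topology

theorem infinite_compl {F : XX → Bool} (hF : F ∈ BB) (t : TT) (b : Bool) (hb : b = F (ir t)) :
    {q | q ∈ bz [] t.1 ∧ rs F q = b}.Infinite := by
  intro hfin
  refine bz_infinite [] t.1 ((hfin.union (hF.2.2 t)).subset fun q hq => ?_)
  by_cases h : rs F q = b
  · exact Or.inl ⟨hq, h⟩
  · exact Or.inr ⟨hq, by rw [← hb]; exact h⟩

theorem resp_rm_iff {F : XX → Bool} (hF : F ∈ BB) (t : TT) :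
    Resp (rs F) (rm t.1) ↔ F (ir t) = rs F (.x []) := by
  constructor
  · intro h
    by_contra hne
    refine infinite_compl hF t _ rfl (h.subset ?_)
    rintro q ⟨hq, he⟩
    refine ⟨hq, ?_⟩
    change rs F q ≠ rs F (.x [])
    rw [he]; exact hne
  · intro h
    refine (hF.2.2 t).subset ?_
    rintro q ⟨hq, hne⟩
    refine ⟨hq, ?_⟩
    rw [h]; exact hne

/-- points at which `F` deviates -/
def Dev (F : XX → Bool) : Set C := {z | z ∈ TT ∧ ¬ Resp (rs F) (rm z)}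

theorem dev_subset (F : XX → Bool) : Dev F ⊆ TT := fun _ h => h.1

theorem mem_dev_iff {F : XX → Bool} (hF : F ∈ BB) (t : TT) : t.1 ∈ Dev F ↔ F (ir t) ≠ rs F (.x []) := by
  unfold Dev
  simp only [mem_ofPred_eq, resp_rm_iff hF]
  exact ⟨fun h => h.2, fun h => ⟨t.2, h⟩⟩

theorem dev_finite {F : XX → Bool} (hF : F ∈ BB) : (Dev F).Finite := by
  obtain ⟨J, Z, h⟩ := hF.1 (some [])
  refine Z.finite_toSet.subset ?_
  rintro z ⟨_, hr⟩
  by_contra hz
  exact hr (resp_of_notMem (M := rm z) (valid_rm z) Z.finite_toSet h hz)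

/-- restriction is injective on `BB` -/
theorem rs_inj : InjOn rs BB := by
  intro F hF G hG h
  funext x
  rcases x with q | t
  · exact congrFun h q
  · by_contra hne
    refine infinite_compl hF t _ rfl ((hG.2.2 t).subset ?_)
    rintro q ⟨hq, he⟩
    refine ⟨hq, ?_⟩
    rw [← h, he]; exact hne

/-- bounded deviation -/
def Om (m : ℕ) : Set (XX → Bool) := {F | F ∈ BB ∧ ∀ t ∈ Dev F, CardC m t (rs F)}

theorem CardC.mono {m n : ℕ} (h : m ≤ n) {t : C} {f : Fn} (hc : CardC m t f) : CardC n t f := by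
  intro Q hQ hcard
  obtain ⟨Q', hQ', hc'⟩ := Finset.exists_subset_card_eq (show m + 1 ≤ Q.card by omega)
  obtain ⟨q, hq, hne⟩ := hc Q' (fun q hq => hQ (hQ' hq)) hc'
  exact ⟨q, hQ' hq, hne⟩

theorem exists_om {F : XX → Bool} (hF : F ∈ BB) : ∃ m, F ∈ Om m := by
  have h1 : ∀ t ∈ Dev F, ∃ m, CardC m t (rs F) := by
    intro t ht
    have hne := (mem_dev_iff hF ⟨t, ht.1⟩).1 ht
    have hfin := hF.2.2 ⟨t, ht.1⟩
    refine ⟨hfin.toFinset.card, fun Q hQ hcard => ?_⟩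
    by_contra hcon
    push Not at hcon
    have hsub : Q ⊆ hfin.toFinset := by
      intro q hq
      rw [Set.Finite.mem_toFinset]
      refine ⟨hQ hq, ?_⟩
      rw [hcon q hq]; exact hne.symm
    have := Finset.card_le_card hsub
    omega
  choose! m hm using h1
  obtain ⟨N, hN⟩ := ((dev_finite hF).image m).bddAbove
  exact ⟨N, hF, fun t ht => (hm t ht).mono (hN (mem_image_of_mem m ht))⟩

open Classical in
/-- extension of a function with prescribed deviations -/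
noncomputable def exF (S : Finset C) (f : Fn) : XX → Bool
  | Sum.inl q => f q
  | Sum.inr t => if t.1 ∈ S then !(f (.x [])) else f (.x [])

theorem exF_pos {S : Finset C} {f : Fn} {t : TT} (ht : t.1 ∈ S) : exF S f (ir t) = !(f (.x [])) := by
  classical
  simp only [exF, ir, ht, if_true]

theorem exF_neg {S : Finset C} {f : Fn} {t : TT} (ht : t.1 ∉ S) : exF S f (ir t) = f (.x []) := by
  classical
  simp only [exF, ir, ht, if_false]

theorem exF_mem {m : ℕ} {S : Finset C} {f : Fn} (hG : G0 f) (hE : ∀ p ∈ EE, Resp f p.2)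
    (hc : ∀ s ∈ S, CardC m s f) (hT : ∀ t ∈ TT, t ∉ S → Resp f (rm t)) : exF S f ∈ BB := by
  refine ⟨hG, hE, fun t => ?_⟩
  by_cases ht : t.1 ∈ S
  · rw [exF_pos ht]
    by_contra hinf
    obtain ⟨Q, hQ, hcard⟩ := Set.Infinite.exists_subset_card_eq hinf (m + 1)
    obtain ⟨q, hq, hne⟩ := hc _ ht Q (fun q hq => (hQ hq).1) hcard
    have h2 : f q ≠ !(f (.x [])) := (hQ hq).2
    revert h2 hne
    cases f q <;> cases f (.x []) <;> simp
  · rw [exF_neg ht]
    exact hT t.1 t.2 ht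

theorem exF_dev {m : ℕ} {S : Finset C} (hS : ∀ s ∈ S, s ∈ TT) {f : Fn} (hG : G0 f)
    (hE : ∀ p ∈ EE, Resp f p.2)
    (hc : ∀ s ∈ S, CardC m s f) (hT : ∀ t ∈ TT, t ∉ S → Resp f (rm t)) : Dev (exF S f) = S := by
  have hB := exF_mem hG hE hc hT
  ext z
  constructor
  · intro hz
    by_contra hzS
    exact hz.2 (hT z hz.1 hzS)
  · intro hz
    refine (mem_dev_iff hB ⟨z, hS z hz⟩).2 ?_
    rw [exF_pos (t := ⟨z, hS z hz⟩) hz]
    change (!(f (.x []))) ≠ f (.x [])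
    cases f (.x []) <;> simp

theorem BP' (m : ℕ) (S : Finset C) (hS : ∀ s ∈ S, s ∈ TT) (A : Set Pat) {W : Set (XX → Bool)}
    (hW : ¬ W.Countable) (hO : ∀ F ∈ W, F ∈ Om m) (hSD : ∀ F ∈ W, (S : Set C) ⊆ Dev F)
    (hA : ∀ F ∈ W, ∀ p ∈ A, ¬ Mat (rs F) p)
    (hd : ∀ F ∈ W, ∀ G ∈ W, ∀ t, t ∈ Dev F → t ∈ Dev G → t ∉ S → F = G) :
    ∃ F ∈ Om m, Dev F = S ∧ ∀ p ∈ A, ¬ Mat (rs F) p := by
  have hWB : W ⊆ BB := fun F hF => (hO F hF).1
  obtain ⟨f, h1, h2, h3, h4, h5⟩ := BP m S hS A (W := rs '' W) (fun h => hW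
      (Set.countable_of_injective_of_countable_image (rs_inj.mono hWB) h))
    (by rintro _ ⟨F, hF, rfl⟩; exact (hWB hF).1)
    (by rintro _ ⟨F, hF, rfl⟩; exact (hWB hF).2.1)
    (by rintro _ ⟨F, hF, rfl⟩; exact hA F hF)
    (by rintro _ ⟨F, hF, rfl⟩ s hs; exact (hO F hF).2 s (hSD F hF hs))
    (by
      intro t ht htS
      refine Set.Subsingleton.countable ?_
      rintro _ ⟨⟨F, hF, rfl⟩, h1⟩ _ ⟨⟨G, hG, rfl⟩, h2⟩
      rw [hd F hF G hG t ⟨ht, h1⟩ ⟨ht, h2⟩ htS])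
  have hdev := exF_dev hS h1 h2 h4 h5
  refine ⟨exF S f, ⟨exF_mem h1 h2 h4 h5, ?_⟩, hdev, h3⟩
  intro t ht
  rw [hdev] at ht
  exact h4 t ht

end CpTwo
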