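import Mathlib
import Pool.Agent.CpTwo.Lind

set_option autoImplicit false

namespace CpTwo

open Set Topology

section

variable {ι : Type} (U : ι → Set (XX → Bool))

/-- patterns contained in a member of the cover -/
def AA (m : ℕ) (S : Finset C) : Set Pat :=
  {p | ∃ i, ∀ G ∈ Om m, (S : Set C) ⊆ Dev G → Mat (rs G) p → G ∈ U i}

theorem key1 (hU : ∀ i, IsOpen (U i)) (hcov : BB ⊆ ⋃ i, U i) {m : ℕ} {S : Finset C}
    {F : XX → Bool} (hF : F ∈ Om m) (hS : Dev F = S) : ∃ p ∈ AA U m S, Mat (rs F) p := by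
  classical
  obtain ⟨i, hi⟩ := mem_iUnion.1 (hcov hF.1)
  obtain ⟨I, u, hu, hsub⟩ := isOpen_pi_iff.1 (hU i) F hi
  have hQ : ∀ t : TT, ∃ Q : Finset NN, t.1 ∉ S → ((Q : Set NN) ⊆ bz [] t.1 ∧ Q.card = m + 1 ∧
      ∀ q ∈ Q, rs F q = rs F (.x [])) := by
    intro t
    by_cases ht : t.1 ∈ S
    · exact ⟨∅, fun h => absurd ht h⟩
    · have hnd : t.1 ∉ Dev F := by rw [hS]; exact ht
      have heq : F (ir t) = rs F (.x []) := by
        by_contra hne
        exact hnd ((mem_dev_iff hF.1 t).2 hne)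
      obtain ⟨Q, h1, h2⟩ := (infinite_compl hF.1 t _ heq.symm).exists_subset_card_eq (m + 1)
      exact ⟨Q, fun _ => ⟨fun q hq => (h1 hq).1, h2, fun q hq => (h1 hq).2⟩⟩
  choose Q hQ using hQ
  let g : XX → Finset NN := fun x => match x with
    | Sum.inl q => {q}
    | Sum.inr t => Q t
  let P : Finset NN := insert (.x []) (I.biUnion g)
  refine ⟨P.image (fun q => (q, rs F q)), ⟨i, ?_⟩, ?_⟩
  · intro G hG hSG hmat
    have hag : ∀ q ∈ P, rs G q = rs F q := fun q hq => hmat (q, rs F q) (Finset.mem_image_of_mem _ hq)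
    have hroot : rs G (.x []) = rs F (.x []) := hag _ (Finset.mem_insert_self _ _)
    apply hsub
    intro x hx
    have hx' : g x ⊆ P := fun q hq => Finset.mem_insert_of_mem (Finset.mem_biUnion.2 ⟨x, hx, hq⟩)
    have heq : G x = F x := by
      rcases x with q | t
      · exact hag q (hx' (Finset.mem_singleton_self q))
      · change G (ir t) = F (ir t)
        by_cases ht : t.1 ∈ S
        · have h1 : F (ir t) ≠ rs F (.x []) := (mem_dev_iff hF.1 t).1 (by rw [hS]; exact ht)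
          have h2 : G (ir t) ≠ rs G (.x []) := (mem_dev_iff hG.1 t).1 (hSG ht)
          rw [hroot] at h2
          rw [Bool.eq_not_of_ne h1, Bool.eq_not_of_ne h2]
        · obtain ⟨h1, h2, h3⟩ := hQ t ht
          have hnd : t.1 ∉ Dev F := by rw [hS]; exact ht
          have heq : F (ir t) = rs F (.x []) := by
            by_contra hne
            exact hnd ((mem_dev_iff hF.1 t).2 hne)
          have hndG : t.1 ∉ Dev G := by
            intro hG'
            obtain ⟨q, hq, hne⟩ := hG.2 _ hG' (Q t) h1 h2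
            apply hne
            rw [hroot, hag q (hx' hq), h3 q hq]
          have heqG : G (ir t) = rs G (.x []) := by
            by_contra hne
            exact hndG ((mem_dev_iff hG.1 t).2 hne)
          rw [heqG, heq, hroot]
    rw [heq]
    exact (hu x hx).2
  · rintro qb hqb
    obtain ⟨q, _, rfl⟩ := Finset.mem_image.1 hqb
    rfl

theorem key3 (hU : ∀ i, IsOpen (U i)) (hcov : BB ⊆ ⋃ i, U i) (m : ℕ) (S : Finset C)
    (hS : ∀ s ∈ S, s ∈ TT) : ∃ H : Set C, H.Countable ∧ ∀ G ∈ Om m, (S : Set C) ⊆ Dev G →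
      (∀ p ∈ AA U m S, ¬ Mat (rs G) p) → ∃ t ∈ H, t ∈ Dev G ∧ t ∉ S := by
  classical
  let P : Set (Set (XX → Bool)) := {W | (∀ F ∈ W, F ∈ Om m ∧ (S : Set C) ⊆ Dev F ∧
    ∀ p ∈ AA U m S, ¬ Mat (rs F) p) ∧
    ∀ F ∈ W, ∀ G ∈ W, ∀ t, t ∈ Dev F → t ∈ Dev G → t ∉ S → F = G}
  obtain ⟨W, hW⟩ : ∃ W, Maximal (· ∈ P) W := by
    refine zorn_subset P ?_
    intro c hc hchain
    refine ⟨⋃₀ c, ⟨?_, ?_⟩, fun s hs => subset_sUnion_of_mem hs⟩
    · rintro F ⟨s, hs, hF⟩
      exact (hc hs).1 F hF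
    · rintro F ⟨s, hs, hF⟩ G ⟨s', hs', hG⟩ t h1 h2 h3
      rcases hchain.total hs hs' with h | h
      · exact (hc hs').2 F (h hF) G hG t h1 h2 h3
      · exact (hc hs).2 F hF G (h hG) t h1 h2 h3
  have hWP : W ∈ P := hW.prop
  have hcount : W.Countable := by
    by_contra hunc
    obtain ⟨F, hF, hdev, hA⟩ := BP' m S hS (AA U m S) hunc (fun F hF => (hWP.1 F hF).1)
      (fun F hF => (hWP.1 F hF).2.1) (fun F hF => (hWP.1 F hF).2.2) hWP.2
    obtain ⟨p, hp, hmat⟩ := key1 U hU hcov hF hdev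
    exact hA p hp hmat
  refine ⟨⋃ F ∈ W, Dev F, hcount.biUnion fun F hF => (dev_finite (hWP.1 F hF).1.1).countable, ?_⟩
  intro G hG hSG hA
  by_contra hcon
  push Not at hcon
  have hne : ∃ t ∈ Dev G, t ∉ S := by
    by_contra h
    push Not at h
    obtain ⟨p, hp, hmat⟩ := key1 U hU hcov hG (le_antisymm h hSG)
    exact hA p hp hmat
  obtain ⟨t0, ht0, ht0S⟩ := hne
  have hins : insert G W ∈ P := by
    refine ⟨?_, ?_⟩
    · rintro F (rfl | hF)
      · exact ⟨hG, hSG, hA⟩
      · exact hWP.1 F hF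
    · rintro F (rfl | hF) F' (rfl | hF') t h1 h2 h3
      · rfl
      · exact absurd (hcon t (mem_iUnion₂.2 ⟨F', hF', h2⟩) h1) h3
      · exact absurd (hcon t (mem_iUnion₂.2 ⟨F, hF, h1⟩) h2) h3
      · exact hWP.2 F hF F' hF' t h1 h2 h3
  have hGW : G ∈ W := hW.le_of_ge hins (subset_insert _ _) (mem_insert _ _)
  exact ht0S (hcon t0 (mem_iUnion₂.2 ⟨G, hGW, ht0⟩) ht0)

end

theorem isLindelof_BB : IsLindelof BB := by
  classical
  apply isLindelof_of_countable_subcover
  intro ι U hU hcov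
  have h3 : ∀ m S, ∃ H : Set C, H.Countable ∧ ((∀ s ∈ S, s ∈ TT) → ∀ G ∈ Om m, ((S : Finset C) : Set C) ⊆ Dev G →
      (∀ p ∈ AA U m S, ¬ Mat (rs G) p) → ∃ t ∈ H, t ∈ Dev G ∧ t ∉ S) := by
    intro m S
    by_cases hS : ∀ s ∈ S, s ∈ TT
    · obtain ⟨H, h1, h2⟩ := key3 U hU hcov m S hS
      exact ⟨H, h1, fun _ => h2⟩
    · exact ⟨∅, countable_empty, fun h => absurd h hS⟩
  choose H hH hH' using h3
  let T : ℕ → ℕ → Set (Finset C) := fun m n => Nat.rec {∅} (fun _ s => ⋃ S ∈ s, (fun t => insert t S) '' (H m S)) n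
  have hT0 : ∀ m, T m 0 = {∅} := fun m => rfl
  have hTs : ∀ m n, T m (n + 1) = ⋃ S ∈ T m n, (fun t => insert t S) '' (H m S) := fun m n => rfl
  have hTc : ∀ m n, (T m n).Countable := by
    intro m n
    induction n with
    | zero => rw [hT0]; exact countable_singleton _
    | succ n ih => rw [hTs]; exact ih.biUnion fun S _ => (hH m S).image _
  have hidx : ∀ m S p, ∃ s : Set ι, s.Countable ∧ (p ∈ AA U m S → ∃ i ∈ s, ∀ G ∈ Om m,
      ((S : Finset C) : Set C) ⊆ Dev G → Mat (rs G) p → G ∈ U i) := by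
    intro m S p
    by_cases hp : p ∈ AA U m S
    · obtain ⟨i, hi⟩ := hp
      exact ⟨{i}, countable_singleton i, fun _ => ⟨i, rfl, hi⟩⟩
    · exact ⟨∅, countable_empty, fun h => absurd h hp⟩
  choose s hs hs' using hidx
  refine ⟨⋃ m, ⋃ n, ⋃ S ∈ T m n, ⋃ p, s m S p, ?_, ?_⟩
  · exact countable_iUnion fun m => countable_iUnion fun n => (hTc m n).biUnion fun S _ =>
      countable_iUnion fun p => hs m S p
  · intro G hG
    obtain ⟨m, hm⟩ := exists_om hG
    have hfin := dev_finite hG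
    have main : ∀ k n (S : Finset C), S ∈ T m n → (S : Set C) ⊆ Dev G → hfin.toFinset.card ≤ S.card + k →
        ∃ i ∈ ⋃ m, ⋃ n, ⋃ S ∈ T m n, ⋃ p, s m S p, G ∈ U i := by
      intro k
      induction k with
      | zero =>
        intro n S hS hSG hcard
        by_cases hA : ∀ p ∈ AA U m S, ¬ Mat (rs G) p
        · exfalso
          obtain ⟨t, _, ht, htS⟩ := hH' m S (fun z hz => dev_subset G (hSG hz)) G hm hSG hA
          have hsub : insert t S ⊆ hfin.toFinset := by
            intro z hz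
            rw [Set.Finite.mem_toFinset]
            rcases Finset.mem_insert.1 hz with rfl | hz
            · exact ht
            · exact hSG hz
          have := Finset.card_le_card hsub
          rw [Finset.card_insert_of_notMem htS] at this
          omega
        · push Not at hA
          obtain ⟨p, hp, hmat⟩ := hA
          obtain ⟨i, hi, h⟩ := hs' m S p hp
          exact ⟨i, mem_iUnion.2 ⟨m, mem_iUnion.2 ⟨n, mem_iUnion₂.2 ⟨S, hS, mem_iUnion.2 ⟨p, hi⟩⟩⟩⟩,
            h G hm hSG hmat⟩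
      | succ k ih =>
        intro n S hS hSG hcard
        by_cases hA : ∀ p ∈ AA U m S, ¬ Mat (rs G) p
        · obtain ⟨t, htH, ht, htS⟩ := hH' m S (fun z hz => dev_subset G (hSG hz)) G hm hSG hA
          refine ih (n + 1) (insert t S) ?_ ?_ ?_
          · rw [hTs]
            exact mem_iUnion₂.2 ⟨S, hS, t, htH, rfl⟩
          · intro z hz
            rcases Finset.mem_insert.1 hz with rfl | hz
            · exact ht
            · exact hSG hz
          · rw [Finset.card_insert_of_notMem htS]; omega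
        · push Not at hA
          obtain ⟨p, hp, hmat⟩ := hA
          obtain ⟨i, hi, h⟩ := hs' m S p hp
          exact ⟨i, mem_iUnion.2 ⟨m, mem_iUnion.2 ⟨n, mem_iUnion₂.2 ⟨S, hS, mem_iUnion.2 ⟨p, hi⟩⟩⟩⟩,
            h G hm hSG hmat⟩
    obtain ⟨i, hi, hGi⟩ := main hfin.toFinset.card 0 ∅ (by rw [hT0]; rfl) (by simp) (by simp)
    exact mem_iUnion₂.2 ⟨i, hi, hGi⟩

/-- `C_p(X,2)` -/
abbrev Cp : Type := {f : XX → Bool // Continuous f}

instance : LindelofSpace Cp := by
  have h : {f : XX → Bool | Continuous f} = BB := by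
    ext F; exact continuous_iff
  have h2 : IsLindelof {f : XX → Bool | Continuous f} := by rw [h]; exact isLindelof_BB
  exact isLindelof_iff_lindelofSpace.1 h2

end CpTwo
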