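import Mathlib
import Pool.Agent.CpTwo.Lind2

set_option autoImplicit false

namespace CpTwo

open Set Topology Filter

/-- nearby points -/
theorem isOpen_pr (e : C) (n : ℕ) : IsOpen {z : C | pr z n = pr e n} := by
  have : {z : C | pr z n = pr e n} = ⋂ i ∈ Finset.range n, {z : C | z i = e i} := by
    ext z
    simp only [mem_ofPred_eq, pr_eq_iff, mem_iInter, Finset.mem_range]
  rw [this]
  refine isOpen_biInter_finset fun i _ => ?_
  have hcont : Continuous (fun z : C => z i) := continuous_apply i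
  exact (isOpen_discrete {b : Bool | b = e i}).preimage hcont

theorem exists_pr {U : Set C} (hU : IsOpen U) {e : C} (he : e ∈ U) : ∃ n, ∀ z, pr z n = pr e n → z ∈ U := by
  obtain ⟨I, u, hu, hsub⟩ := isOpen_pi_iff.1 hU e he
  refine ⟨I.sup id + 1, fun z hz => hsub ?_⟩
  intro i hi
  have : z i = e i := pr_eq_iff.1 hz i (Nat.lt_succ_of_le (Finset.le_sup (f := id) hi))
  rw [this]
  exact (hu i hi).2

theorem continuous_decide (P : C → Prop) [DecidablePred P] (n : ℕ)
    (h : ∀ z z', pr z n = pr z' n → P z → P z') : Continuous (fun z => decide (P z)) := by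
  rw [continuous_iff_continuousAt]
  intro z
  refine tendsto_const_nhds.congr' ?_
  filter_upwards [(isOpen_pr z n).mem_nhds rfl] with z' hz'
  rw [Bool.eq_iff_iff]
  simp only [decide_eq_true_eq]
  exact ⟨h z z' (Eq.symm hz'), h z' z hz'⟩

/-- branches outside of the root block -/
def bfull (t : C) : Set NN := {q | ∃ s r, q = .iso s r ∧ Pfx s t ∧ Pfx r t}

theorem bfull_congr {z z' : C} {q : NN} (h : pr z q.L = pr z' q.L) (hq : q ∈ bfull z) : q ∈ bfull z' := by
  obtain ⟨s, r, rfl, hs, hr⟩ := hq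
  exact ⟨s, r, rfl, Pfx.congr h (le_max_left _ _) hs, Pfx.congr h (le_max_right _ _) hr⟩

open Classical in
/-- first function -/
noncomputable def hF (t : C) : XX → Bool
  | Sum.inl q => decide (q ∈ hz t ∧ q ∉ blk [] ∧ q ≠ .x [])
  | Sum.inr _ => false

open Classical in
/-- second function -/
noncomputable def bF (t x : C) : XX → Bool
  | Sum.inl q => decide ((q ∈ bfull t ∧ q ∉ blk []) ∨ q ∈ bz [] x)
  | Sum.inr t' => decide (t'.1 = x)

theorem rs_hF (t : C) (q : NN) : rs (hF t) q = true ↔ (q ∈ hz t ∧ q ∉ blk [] ∧ q ≠ .x []) := by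
  simp [rs, hF, il]

theorem rs_bF (t x : C) (q : NN) : rs (bF t x) q = true ↔ ((q ∈ bfull t ∧ q ∉ blk []) ∨ q ∈ bz [] x) := by
  simp [rs, bF, il]

theorem bfull_pnt (t : C) (y : Option (List Bool)) : pnt y ∉ bfull t := by
  rintro ⟨s, r, h, _⟩
  cases y <;> cases h

theorem bz_pnt (s : List Bool) (t : C) (y : Option (List Bool)) : pnt y ∉ bz s t := by
  rintro ⟨r, h, _⟩
  cases y <;> cases h

theorem rs_bF_pnt (t x : C) (y : Option (List Bool)) : rs (bF t x) (pnt y) = false := by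
  rw [← Bool.not_eq_true, rs_bF]
  rintro (⟨h, _⟩ | h)
  · exact bfull_pnt _ _ h
  · exact bz_pnt _ _ _ h

theorem rs_hF_inf (t : C) : rs (hF t) .inf = false := by
  rw [← Bool.not_eq_true, rs_hF]
  rintro ⟨h, _⟩
  exact h

theorem rs_hF_const (t : C) (s r : List Bool) : rs (hF t) (.iso s r) = rs (hF t) (.x s) := by
  rw [Bool.eq_iff_iff, rs_hF, rs_hF]
  constructor
  · rintro ⟨h1, h2, _⟩
    refine ⟨h1, ?_, ?_⟩
    · rintro ⟨r', h⟩; cases h
    · intro h
      simp only [NN.x.injEq] at h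
      exact h2 ⟨r, by rw [h]⟩
  · rintro ⟨h1, _, h2⟩
    refine ⟨h1, ?_, ?_⟩
    · rintro ⟨r', h⟩
      simp only [NN.iso.injEq] at h
      exact h2 (by rw [h.1])
    · intro h; cases h

theorem mem_hz_of_bfull {t : C} {q : NN} (h : q ∈ bfull t) : q ∈ hz t := by
  obtain ⟨s, r, rfl, hs, _⟩ := h
  exact hs

theorem mem_hz_of_bz {x : C} {q : NN} (h : q ∈ bz [] x) : q ∈ hz x := by
  obtain ⟨r, rfl, _⟩ := h
  exact pfx_nil x

theorem ne_of_mem_EE {t : C} (ht : t ∈ TT) {p : C × Mark} (hp : p ∈ EE) : t ≠ p.1 := by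
  rintro rfl
  exact ht ⟨p, hp, rfl⟩

theorem hF_mem {t : C} (ht : t ∈ TT) : hF t ∈ BB := by
  refine ⟨?_, ?_, ?_⟩
  · intro y
    cases y with
    | none =>
      refine ⟨∅, {t}, fun q _ hne => Or.inr ⟨t, Finset.mem_singleton_self _, ?_⟩⟩
      change rs (hF t) q ≠ rs (hF t) .inf at hne
      rw [rs_hF_inf, ne_eq, Bool.not_eq_false, rs_hF] at hne
      exact hne.1
    | some s =>
      refine ⟨∅, ∅, ?_⟩
      rintro q ⟨r, rfl⟩ hne
      exact absurd (rs_hF_const t s r) hne
  · rintro ⟨z, ⟨y, Q⟩⟩ hp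
    have hv := (EE_valid _ hp).1
    cases y with
    | none =>
      refine (hv.inter_finite (ne_of_mem_EE ht hp)).subset ?_
      rintro q ⟨hqQ, hne⟩
      refine ⟨hqQ, ?_⟩
      change rs (hF t) q ≠ rs (hF t) .inf at hne
      rw [rs_hF_inf, ne_eq, Bool.not_eq_false, rs_hF] at hne
      exact hne.1
    | some s =>
      refine finite_empty.subset ?_
      rintro q ⟨hqQ, hne⟩
      obtain ⟨r, rfl⟩ := hv.subset_dom hqQ
      exact hne (rs_hF_const t s r)
  · intro t'
    refine finite_empty.subset ?_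
    rintro q ⟨⟨r, rfl, _⟩, hne⟩
    have h1 : hF t (ir t') = false := rfl
    rw [h1, ne_eq, Bool.not_eq_false, rs_hF] at hne
    exact hne.2.1 ⟨r, rfl⟩

theorem bF_mem {t : C} (ht : t ∈ TT) (x : C) : bF t x ∈ BB := by
  classical
  refine ⟨?_, ?_, ?_⟩
  · intro y
    refine ⟨∅, {t, x}, fun q hqd hne => Or.inr ?_⟩
    rw [rs_bF_pnt, ne_eq, Bool.not_eq_false, rs_bF] at hne
    cases y with
    | none =>
      rcases hne with ⟨h, _⟩ | h
      · exact ⟨t, by simp, mem_hz_of_bfull h⟩
      · exact ⟨x, by simp, mem_hz_of_bz h⟩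
    | some s =>
      obtain ⟨r, rfl⟩ := hqd
      rcases hne with ⟨⟨s', r', h, h1, h2⟩, _⟩ | ⟨r', h, h1⟩
      · simp only [NN.iso.injEq] at h
        refine ⟨t, by simp, r, rfl, ?_⟩
        rw [h.2]; exact h2
      · simp only [NN.iso.injEq] at h
        refine ⟨x, by simp, r, rfl, ?_⟩
        rw [h.2]; exact h1
  · rintro ⟨z, ⟨y, Q⟩⟩ hp
    have hv := (EE_valid _ hp).1
    have hfin := hv.inter_finite (ne_of_mem_EE ht hp)
    cases y with
    | none =>
      refine (hfin.union (hv.2.2.2.1 [] rfl)).subset ?_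
      rintro q ⟨hqQ, hne⟩
      change rs (bF t x) q ≠ rs (bF t x) (pnt none) at hne
      rw [rs_bF_pnt, ne_eq, Bool.not_eq_false, rs_bF] at hne
      rcases hne with ⟨h, _⟩ | ⟨r', h, _⟩
      · exact Or.inl ⟨hqQ, mem_hz_of_bfull h⟩
      · exact Or.inr ⟨hqQ, r', h⟩
    | some s =>
      refine hfin.subset ?_
      rintro q ⟨hqQ, hne⟩
      refine ⟨hqQ, ?_⟩
      change rs (bF t x) q ≠ rs (bF t x) (pnt (some s)) at hne
      rw [rs_bF_pnt, ne_eq, Bool.not_eq_false, rs_bF] at hne
      obtain ⟨r, rfl⟩ := hv.subset_dom hqQ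
      rcases hne with ⟨⟨s', r', h, h1, h2⟩, _⟩ | ⟨r', h, h1⟩
      · simp only [NN.iso.injEq] at h
        refine ⟨r, rfl, ?_⟩
        rw [h.2]; exact h2
      · simp only [NN.iso.injEq] at h
        exact absurd (by rw [h.1]) (EE_valid _ hp).2
  · intro t'
    by_cases htx : t'.1 = x
    · refine finite_empty.subset ?_
      rintro q ⟨hqb, hne⟩
      apply hne
      rw [Bool.eq_iff_iff, rs_bF]
      simp only [bF, ir, decide_eq_true_eq]
      rw [← htx]
      exact ⟨fun _ => rfl, fun _ => Or.inr hqb⟩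
    · refine (bz_inter_finite (s := []) htx).subset ?_
      rintro q ⟨hqb, hne⟩
      refine ⟨hqb, ?_⟩
      have h0 : bF t x (ir t') = false := by simp [bF, ir, htx]
      rw [h0, ne_eq, Bool.not_eq_false, rs_bF] at hne
      obtain ⟨r, rfl, hr⟩ := hqb
      rcases hne with ⟨_, h⟩ | h
      · exact absurd ⟨r, rfl⟩ h
      · exact h

/-- the decoding property: 3-partitions force `t ∈ TT` -/
theorem mem_TT {G H : XX → Bool} (hG : G ∈ BB) (hH : H ∈ BB) {z x : C} (h1 : rs G = rs (hF z))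
    (h2 : rs H = rs (bF z x)) : z ∈ TT := by
  rintro ⟨⟨z', ⟨y, Q⟩⟩, hp, rfl⟩
  have hv := (EE_valid _ hp).1
  cases y with
  | none =>
    have hr := hG.2.1 _ hp
    refine hv.1 ((hr.union (hv.2.2.2.1 [] rfl)).subset fun q hq => ?_)
    by_cases hb : q ∈ blk []
    · exact Or.inr ⟨hq, hb⟩
    · left
      refine ⟨hq, ?_⟩
      change rs G q ≠ rs G .inf
      rw [h1, rs_hF_inf, ne_eq, Bool.not_eq_false, rs_hF]
      refine ⟨hv.2.1 hq, hb, ?_⟩
      rintro rfl
      obtain ⟨s, r, h⟩ := hv.2.2.1 _ hq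
      cases h
  | some s =>
    have hr := hH.2.1 _ hp
    refine hv.1 (hr.subset fun q hq => ⟨hq, ?_⟩)
    change rs H q ≠ rs H (pnt (some s))
    rw [h2, rs_bF_pnt, ne_eq, Bool.not_eq_false, rs_bF]
    left
    obtain ⟨r, rfl, hr'⟩ := hv.2.1 hq
    refine ⟨⟨s, r, rfl, hv.2.2.2.2 s rfl, hr'⟩, ?_⟩
    rintro ⟨r', h⟩
    simp only [NN.iso.injEq] at h
    exact (EE_valid _ hp).2 (by rw [h.1])

theorem continuous_rs_hF : Continuous (fun t : C => rs (hF t)) := by
  classical
  rw [continuous_pi_iff]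
  intro q
  refine continuous_decide (fun t : C => q ∈ hz t ∧ q ∉ blk [] ∧ q ≠ .x []) q.L ?_
  rintro z z' h ⟨h1, h2⟩
  exact ⟨beta_congr (y := none) h le_rfl h1, h2⟩

theorem continuous_rs_bF : Continuous (fun p : C × C => rs (bF p.2 p.1)) := by
  classical
  rw [continuous_pi_iff]
  intro q
  have h1 : Continuous (fun t : C => decide (q ∈ bfull t ∧ q ∉ blk [])) := by
    refine continuous_decide (fun t : C => q ∈ bfull t ∧ q ∉ blk []) q.L ?_
    rintro z z' h ⟨h1, h2⟩
    exact ⟨bfull_congr h h1, h2⟩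
  have h2 : Continuous (fun x : C => decide (q ∈ bz [] x)) := by
    refine continuous_decide (fun x : C => q ∈ bz [] x) q.L ?_
    rintro z z' h h1
    exact beta_congr (y := some []) h le_rfl h1
  have h3 : Continuous (fun p : C × C => (decide (q ∈ bfull p.2 ∧ q ∉ blk []) || decide (q ∈ bz [] p.1))) := by
    have h4 : Continuous (fun p : C × C => (decide (q ∈ bfull p.2 ∧ q ∉ blk []), decide (q ∈ bz [] p.1))) :=
      (h1.comp continuous_snd).prodMk (h2.comp continuous_fst)
    exact (continuous_of_discreteTopology (f := fun b : Bool × Bool => b.1 || b.2)).comp h4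
  convert h3 using 2 with p
  rw [Bool.eq_iff_iff, rs_bF]
  simp

/-- the restriction map on pairs -/
def RR (p : Cp × Cp) : Fn × Fn := (rs p.1.1, rs p.2.1)

theorem continuous_RR : Continuous RR := by
  refine Continuous.prodMk ?_ ?_
  · rw [continuous_pi_iff]
    intro q
    exact (continuous_apply (il q)).comp (continuous_subtype_val.comp continuous_fst)
  · rw [continuous_pi_iff]
    intro q
    exact (continuous_apply (il q)).comp (continuous_subtype_val.comp continuous_snd)

theorem cp_mem (F : Cp) : F.1 ∈ BB := continuous_iff.1 F.2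

/-- the pair of functions -/
noncomputable def Psi (x : C) (t : TT) : Cp × Cp :=
  (⟨hF t.1, continuous_iff.2 (hF_mem t.2)⟩, ⟨bF t.1 x, continuous_iff.2 (bF_mem t.2 x)⟩)

theorem eq_Psi {p : Cp × Cp} {z x : C} (h : RR p = (rs (hF z), rs (bF z x))) :
    ∃ hz : z ∈ TT, p = Psi x ⟨z, hz⟩ := by
  have h1 : rs p.1.1 = rs (hF z) := congrArg Prod.fst h
  have h2 : rs p.2.1 = rs (bF z x) := congrArg Prod.snd h
  have hz := mem_TT (cp_mem p.1) (cp_mem p.2) h1 h2
  refine ⟨hz, ?_⟩
  refine Prod.ext (Subtype.ext ?_) (Subtype.ext ?_)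
  · exact rs_inj (cp_mem p.1) (hF_mem hz) h1
  · exact rs_inj (cp_mem p.2) (bF_mem hz x) h2

/-- first closed set -/
def SA : Set (Cp × Cp) := {p | ∃ t : TT, p = Psi t.1 t}
/-- second closed set -/
def SB : Set (Cp × Cp) := {p | ∃ (t : TT) (x : C), x ∉ TT ∧ p = Psi x t}

theorem isClosed_SA : IsClosed SA := by
  have hK : IsClosed (range (fun z : C => ((rs (hF z), rs (bF z z)) : Fn × Fn))) := by
    refine (isCompact_range ?_).isClosed
    exact continuous_rs_hF.prodMk (continuous_rs_bF.comp (continuous_id.prodMk continuous_id))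
  have : SA = RR ⁻¹' (range (fun z : C => ((rs (hF z), rs (bF z z)) : Fn × Fn))) := by
    ext p
    constructor
    · rintro ⟨t, rfl⟩
      exact ⟨t.1, rfl⟩
    · rintro ⟨z, hz⟩
      obtain ⟨h1, h2⟩ := eq_Psi hz.symm
      exact ⟨⟨z, h1⟩, h2⟩
  rw [this]
  exact hK.preimage continuous_RR

theorem isClosed_SB : IsClosed SB := by
  have hK : IsClosed (range (fun p : C × C => ((rs (hF p.2), rs (bF p.2 p.1)) : Fn × Fn))) := by
    refine (isCompact_range ?_).isClosed
    exact (continuous_rs_hF.comp continuous_snd).prodMk continuous_rs_bF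
  have : SB = RR ⁻¹' (range (fun p : C × C => ((rs (hF p.2), rs (bF p.2 p.1)) : Fn × Fn))) ∩
      ⋂ t : TT, {p : Cp × Cp | p.2.1 (ir t) = false} := by
    ext p
    constructor
    · rintro ⟨t, x, hx, rfl⟩
      refine ⟨⟨(x, t.1), rfl⟩, mem_iInter.2 fun t' => ?_⟩
      change bF t.1 x (ir t') = false
      have : t'.1 ≠ x := fun h => hx (h ▸ t'.2)
      simp [bF, ir, this]
    · rintro ⟨⟨⟨x, z⟩, hz⟩, h⟩
      obtain ⟨h1, h2⟩ := eq_Psi hz.symm
      refine ⟨⟨z, h1⟩, x, ?_, h2⟩
      intro hx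
      have h3 := mem_iInter.1 h ⟨x, hx⟩
      rw [h2] at h3
      change bF z x (ir ⟨x, hx⟩) = false at h3
      simp [bF, ir] at h3
  rw [this]
  refine (hK.preimage continuous_RR).inter (isClosed_iInter fun t => ?_)
  have hcont : Continuous (fun p : Cp × Cp => p.2.1 (ir t)) :=
    (continuous_apply (ir t)).comp (continuous_subtype_val.comp continuous_snd)
  exact IsClosed.preimage hcont (isClosed_discrete {b : Bool | b = false})

theorem disjoint_SA_SB : Disjoint SA SB := by
  rw [Set.disjoint_left]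
  rintro p ⟨t, rfl⟩ ⟨t', x, hx, h⟩
  have h1 : (Psi t.1 t).2.1 (ir t) = (Psi x t').2.1 (ir t) := by rw [h]
  change bF t.1 t.1 (ir t) = bF t'.1 x (ir t) at h1
  have : t.1 ≠ x := fun h => hx (h ▸ t.2)
  simp [bF, ir, this] at h1

theorem continuous_Psi_right (x : C) : Continuous (fun t : TT => Psi x t) := by
  refine Continuous.prodMk ?_ ?_
  · refine Continuous.subtype_mk ?_ _
    rw [continuous_pi_iff]
    rintro (q | t')
    · exact ((continuous_apply q).comp continuous_rs_hF).comp continuous_subtype_val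
    · exact continuous_const
  · refine Continuous.subtype_mk ?_ _
    rw [continuous_pi_iff]
    rintro (q | t')
    · exact ((continuous_apply q).comp continuous_rs_bF).comp
        (continuous_const.prodMk continuous_subtype_val)
    · exact continuous_const

theorem continuousAt_Psi_left (t : TT) {e : C} (he : e ∉ TT) : ContinuousAt (fun x : C => Psi x t) e := by
  refine ContinuousAt.prodMk continuousAt_const ?_
  refine tendsto_subtype_rng.2 (continuousAt_pi.2 ?_)
  rintro (q | t')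
  · exact (((continuous_apply q).comp continuous_rs_bF).comp
        (continuous_id.prodMk continuous_const)).continuousAt
  · have hne : t'.1 ≠ e := fun h => he (h ▸ t'.2)
    have h1 : ∀ᶠ x in 𝓝 e, t'.1 ≠ x := by
      filter_upwards [isOpen_ne.mem_nhds hne.symm] with x hx
      exact fun h => hx h.symm
    refine tendsto_const_nhds.congr' ?_
    filter_upwards [h1] with x hx
    change bF t.1 e (ir t') = bF t.1 x (ir t')
    simp [bF, ir, hne, hx]

theorem closed_countable {P : Set C} (hP : IsClosed P) (hPT : P ⊆ TT) : P.Countable := by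
  have hK : IsClosed ((fun x : C => rs (braF x)) '' P) := by
    refine (hP.isCompact.image ?_).isClosed
    classical
    rw [continuous_pi_iff]
    intro q
    refine continuous_decide (fun x : C => q ∈ bz [] x) q.L ?_
    rintro z z' h h1
    exact beta_congr (y := some []) h le_rfl h1
  have hres : Continuous (fun F : Cp => rs F.1) := by
    rw [continuous_pi_iff]
    intro q
    exact (continuous_apply (il q)).comp continuous_subtype_val
  let U : Option P → Set Cp := fun o => match o with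
    | none => (fun F : Cp => rs F.1) ⁻¹' ((fun x : C => rs (braF x)) '' P)ᶜ
    | some t => {F | F.1 (ir ⟨t.1, hPT t.2⟩) = true}
  obtain ⟨r, hr, hcov⟩ := (isLindelof_univ (X := Cp)).elim_countable_subcover U (by
      rintro (_ | t)
      · exact hK.isOpen_compl.preimage hres
      · have hcont : Continuous (fun F : Cp => F.1 (ir ⟨t.1, hPT t.2⟩)) :=
          (continuous_apply _).comp continuous_subtype_val
        exact (isOpen_discrete {b : Bool | b = true}).preimage hcont) (by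
      intro F _
      by_cases hF : rs F.1 ∈ (fun x : C => rs (braF x)) '' P
      · obtain ⟨x, hx, he⟩ := hF
        have heq : braF x = F.1 := rs_inj (braF_mem x) (cp_mem F) he
        refine mem_iUnion.2 ⟨some ⟨x, hx⟩, ?_⟩
        change F.1 (ir ⟨x, hPT hx⟩) = true
        rw [← heq]
        simp [braF, ir]
      · exact mem_iUnion.2 ⟨none, hF⟩)
  have h1 : P ⊆ ⋃ o ∈ r, (match o with | none => ∅ | some t => {t.1} : Set C) := by
    intro x hx
    obtain ⟨o, ho, h⟩ := mem_iUnion₂.1 (hcov (mem_univ (⟨braF x, continuous_iff.2 (braF_mem x)⟩ : Cp)))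
    cases o with
    | none => exact absurd ⟨x, hx, rfl⟩ h
    | some t =>
      refine mem_iUnion₂.2 ⟨some t, ho, ?_⟩
      change braF x (ir ⟨t.1, hPT t.2⟩) = true at h
      have : t.1 = x := by simpa [braF, ir] using h
      exact this.symm
  refine (hr.biUnion fun o _ => ?_).mono h1
  cases o
  · exact countable_empty
  · exact countable_singleton _

theorem not_normal : ¬ NormalSpace (Cp × Cp) := by
  intro hn
  obtain ⟨U, V, hU, hV, hAU, hBV, hUV⟩ := hn.normal SA SB isClosed_SA isClosed_SB disjoint_SA_SB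
  let T : ℕ → Set C := fun n => {z | ∃ hz : z ∈ TT, ∀ t' : TT, pr t'.1 n = pr z n → Psi z t' ∈ U}
  have hT : TT ⊆ ⋃ n, T n := by
    intro z hz
    have h1 : IsOpen ((fun t : TT => Psi z t) ⁻¹' U) := hU.preimage (continuous_Psi_right z)
    obtain ⟨O, hO, hOe⟩ := isOpen_induced_iff.1 h1
    have hzO : z ∈ O := by
      have : (⟨z, hz⟩ : TT) ∈ Subtype.val ⁻¹' O := by
        rw [hOe]
        exact hAU ⟨⟨z, hz⟩, rfl⟩
      exact this
    obtain ⟨n, hn⟩ := exists_pr hO hzO
    refine mem_iUnion.2 ⟨n, hz, fun t' ht' => ?_⟩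
    have : t' ∈ Subtype.val ⁻¹' O := hn t'.1 ht'
    rw [hOe] at this
    exact this
  obtain ⟨n, e, he, heT⟩ : ∃ n, ∃ e ∈ closure (T n), e ∉ TT := by
    by_contra hcon
    push Not at hcon
    refine TT_uncountable ((countable_iUnion fun n => ?_).mono hT)
    exact (closed_countable isClosed_closure (hcon n)).mono subset_closure
  obtain ⟨t', ⟨ht'1, ht'2⟩, ht'3⟩ : ∃ z, z ∈ T n ∧ pr z n = pr e n := by
    obtain ⟨z, hz1, hz2⟩ := mem_closure_iff.1 he _ (isOpen_pr e n) rfl
    exact ⟨z, hz2, hz1⟩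
  have hVe : Psi e ⟨t', ht'1⟩ ∈ V := hBV ⟨⟨t', ht'1⟩, e, heT, rfl⟩
  have h2 := (continuousAt_Psi_left ⟨t', ht'1⟩ heT).preimage_mem_nhds (hV.mem_nhds hVe)
  obtain ⟨O, hO1, hO2, hO3⟩ := mem_nhds_iff.1 h2
  obtain ⟨k, hk⟩ := exists_pr hO2 hO3
  obtain ⟨t, ⟨ht1, ht2⟩, ht3⟩ : ∃ z, z ∈ T n ∧ pr z (max n k) = pr e (max n k) := by
    obtain ⟨z, hz1, hz2⟩ := mem_closure_iff.1 he _ (isOpen_pr e (max n k)) rfl
    exact ⟨z, hz2, hz1⟩
  have h3 : Psi t ⟨t', ht'1⟩ ∈ V := hO1 (hk t (pr_eq_mono ht3 (le_max_right _ _)))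
  have h4 : Psi t ⟨t', ht'1⟩ ∈ U := ht2 ⟨t', ht'1⟩ (ht'3.trans (pr_eq_mono ht3 (le_max_left _ _)).symm)
  exact Set.disjoint_left.1 hUV h4 h3

end CpTwo
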